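import Mathlib

/-!
# LGO, part (4c): lengths of complex polynomials
-/

namespace Pool.Agent.LGO.Det

open Polynomial

/-- length of a complex polynomial: the sum of the absolute values of its coefficients -/
noncomputable def len (P : ℂ[X]) : ℝ := P.sum fun _ a => ‖a‖

lemma len_eq_of_natDegree_lt (P : ℂ[X]) (n : ℕ) (h : P.natDegree < n) :
    len P = ∑ i ∈ Finset.range n, ‖P.coeff i‖ := by
  rw [len, Polynomial.sum_over_range' P (by simp) n h]

lemma len_nonneg (P : ℂ[X]) : 0 ≤ len P := by
  rw [len, Polynomial.sum]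
  exact Finset.sum_nonneg fun _ _ => norm_nonneg _

@[simp] lemma len_zero : len 0 = 0 := by simp [len]

@[simp] lemma len_C (a : ℂ) : len (C a) = ‖a‖ := by simp [len]

@[simp] lemma len_one : len 1 = 1 := by
  rw [← C_1, len_C]; simp

lemma norm_coeff_le_len (P : ℂ[X]) (i : ℕ) : ‖P.coeff i‖ ≤ len P := by
  rw [len_eq_of_natDegree_lt P (max (P.natDegree + 1) (i + 1)) (by omega)]
  exact Finset.single_le_sum (f := fun i => ‖P.coeff i‖) (fun _ _ => norm_nonneg _)
    (Finset.mem_range.2 (by omega))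

lemma sum_norm_coeff_le_len (P : ℂ[X]) (s : Finset ℕ) : ∑ i ∈ s, ‖P.coeff i‖ ≤ len P := by
  classical
  rw [len, Polynomial.sum]
  calc ∑ i ∈ s, ‖P.coeff i‖ = ∑ i ∈ s ∩ P.support, ‖P.coeff i‖ := by
        symm
        apply Finset.sum_subset Finset.inter_subset_left
        intro x hx hx'
        have : x ∉ P.support := fun h => hx' (Finset.mem_inter.2 ⟨hx, h⟩)
        simpa using this
    _ ≤ ∑ i ∈ P.support, ‖P.coeff i‖ :=
        Finset.sum_le_sum_of_subset_of_nonneg Finset.inter_subset_right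
          (fun _ _ _ => norm_nonneg _)

lemma len_le (P : ℂ[X]) (n : ℕ) (c : ℝ) (hn : P.natDegree ≤ n) (hc : ∀ i, ‖P.coeff i‖ ≤ c) :
    len P ≤ (n + 1) * c := by
  rw [len_eq_of_natDegree_lt P (n + 1) (by omega)]
  calc ∑ i ∈ Finset.range (n + 1), ‖P.coeff i‖ ≤ ∑ i ∈ Finset.range (n + 1), c :=
        Finset.sum_le_sum fun i _ => hc i
    _ = (n + 1) * c := by simp

lemma len_add_le (P Q : ℂ[X]) : len (P + Q) ≤ len P + len Q := by
  set n := max P.natDegree Q.natDegree + 1
  rw [len_eq_of_natDegree_lt P n (by omega), len_eq_of_natDegree_lt Q n (by omega),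
    len_eq_of_natDegree_lt (P + Q) n (by have := natDegree_add_le P Q; omega),
    ← Finset.sum_add_distrib]
  exact Finset.sum_le_sum fun i _ => by rw [coeff_add]; exact norm_add_le _ _

lemma len_sum_le {ι : Type*} (s : Finset ι) (f : ι → ℂ[X]) :
    len (∑ i ∈ s, f i) ≤ ∑ i ∈ s, len (f i) := by
  classical
  induction s using Finset.induction with
  | empty => simp
  | insert a s ha ih =>
    rw [Finset.sum_insert ha, Finset.sum_insert ha]
    exact (len_add_le _ _).trans (by gcongr)

lemma len_monomial_mul (k : ℕ) (a : ℂ) (Q : ℂ[X]) : len (monomial k a * Q) ≤ ‖a‖ * len Q := by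
  set n := (monomial k a * Q).natDegree + Q.natDegree + 1
  rw [len_eq_of_natDegree_lt (monomial k a * Q) (n + k) (by omega),
    len_eq_of_natDegree_lt Q n (by omega)]
  rw [← Finset.sum_range_add_sum_Ico _ (show k ≤ n + k by omega)]
  have h0 : ∑ i ∈ Finset.range k, ‖(monomial k a * Q).coeff i‖ = 0 := by
    apply Finset.sum_eq_zero
    intro i hi
    rw [← C_mul_X_pow_eq_monomial, mul_assoc, coeff_C_mul, coeff_X_pow_mul']
    rw [Finset.mem_range] at hi
    rw [if_neg (by omega)]; simp
  rw [h0, zero_add, Finset.sum_Ico_eq_sum_range, Finset.mul_sum]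
  rw [show n + k - k = n by omega]
  apply Finset.sum_le_sum
  intro i _
  rw [← C_mul_X_pow_eq_monomial, mul_assoc, coeff_C_mul, coeff_X_pow_mul', if_pos (by omega),
    show k + i - k = i by omega, norm_mul]

lemma len_mul_le (P Q : ℂ[X]) : len (P * Q) ≤ len P * len Q := by
  conv_lhs => rw [P.as_sum_support, Finset.sum_mul]
  refine (len_sum_le _ _).trans ?_
  rw [len, Polynomial.sum, Finset.sum_mul]
  exact Finset.sum_le_sum fun i _ => len_monomial_mul _ _ _

lemma len_prod_le {ι : Type*} (s : Finset ι) (f : ι → ℂ[X]) :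
    len (∏ i ∈ s, f i) ≤ ∏ i ∈ s, len (f i) := by
  classical
  induction s using Finset.induction with
  | empty => simp
  | insert a s ha ih =>
    rw [Finset.prod_insert ha, Finset.prod_insert ha]
    exact (len_mul_le _ _).trans (by gcongr; exact len_nonneg _)

lemma len_pow_le (P : ℂ[X]) (n : ℕ) : len (P ^ n) ≤ len P ^ n := by
  induction n with
  | zero => simp
  | succ n ih =>
    rw [pow_succ, pow_succ]
    exact (len_mul_le _ _).trans (by gcongr; exact len_nonneg _)

lemma len_X_add_C (t : ℂ) : len (X + C t) = 1 + ‖t‖ := by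
  rw [len_eq_of_natDegree_lt (X + C t) 2 (by rw [natDegree_X_add_C]; norm_num)]
  simp [Finset.sum_range_succ, coeff_X, coeff_C, add_comm]

lemma len_taylor_le (P : ℂ[X]) (t : ℂ) (n : ℕ) (hn : P.natDegree ≤ n) :
    len (taylor t P) ≤ (1 + ‖t‖) ^ n * len P := by
  have h1 : taylor t P = ∑ i ∈ P.support, C (P.coeff i) * (X + C t) ^ i := by
    conv_lhs => rw [P.as_sum_support]
    rw [map_sum]
    exact Finset.sum_congr rfl fun i _ => taylor_monomial _ _ _
  rw [h1]
  refine (len_sum_le _ _).trans ?_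
  rw [len, Polynomial.sum, Finset.mul_sum]
  apply Finset.sum_le_sum
  intro i hi
  have hi' : i ≤ n := (le_natDegree_of_mem_supp i hi).trans hn
  calc len (C (P.coeff i) * (X + C t) ^ i) ≤ len (C (P.coeff i)) * len ((X + C t) ^ i) :=
        len_mul_le _ _
    _ ≤ ‖P.coeff i‖ * (1 + ‖t‖) ^ i := by
        rw [len_C]
        gcongr
        rw [← len_X_add_C]
        exact len_pow_le _ _
    _ ≤ ‖P.coeff i‖ * (1 + ‖t‖) ^ n := by
        gcongr
        linarith [norm_nonneg t]
    _ = _ := by ring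

lemma mahler_le_len (P : ℂ[X]) : P.mahlerMeasure ≤ len P := P.mahlerMeasure_le_sum_norm_coeff

lemma len_le_mahler (P : ℂ[X]) (n : ℕ) (hn : P.natDegree ≤ n) :
    len P ≤ 2 ^ n * P.mahlerMeasure := by
  rw [len_eq_of_natDegree_lt P (P.natDegree + 1) (by omega)]
  calc ∑ i ∈ Finset.range (P.natDegree + 1), ‖P.coeff i‖
      ≤ ∑ i ∈ Finset.range (P.natDegree + 1), (P.natDegree.choose i : ℝ) * P.mahlerMeasure :=
        Finset.sum_le_sum fun i _ => norm_coeff_le_choose_mul_mahlerMeasure i P
    _ = 2 ^ P.natDegree * P.mahlerMeasure := by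
        rw [← Finset.sum_mul]
        congr 1
        exact_mod_cast Nat.sum_range_choose P.natDegree
    _ ≤ 2 ^ n * P.mahlerMeasure := by
        gcongr
        · exact mahlerMeasure_nonneg P
        · norm_num

end Pool.Agent.LGO.Det
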