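import Mathlib
import Pool.Agent.LGO.B.DetLen

/-!
# LGO, part (4c): the determinant lemma

Let `N = Q.natDegree`.  If `N < J` the leading coefficient is a Taylor coefficient of order `< J`,
so `e ≥ 1`.  Otherwise choose `θ ≤ n J` such that `Q_J = ∑_(i ≤ J) θ^i hasseDeriv i Q` has no common
root with `Q`; the resultant of `Q` and `Q_J` is a nonzero integer; it is the determinant of the
Sylvester matrix of the Taylor expansions at `t` (`Polynomial.resultant_taylor`), whose rows of
index `< J` are small.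
-/

namespace Pool.Agent.LGO.Det

open Polynomial

lemma norm_det_le_prod {ι : Type*} [Fintype ι] [DecidableEq ι] (A : Matrix ι ι ℂ) :
    ‖A.det‖ ≤ ∏ i, ∑ j, ‖A i j‖ := by
  rw [← Matrix.det_transpose, Matrix.det_apply']
  refine (norm_sum_le _ _).trans ?_
  calc ∑ σ : Equiv.Perm ι, ‖((Equiv.Perm.sign σ : ℤ) : ℂ) * ∏ i, A.transpose (σ i) i‖
      = ∑ σ : Equiv.Perm ι, ∏ i, ‖A i (σ i)‖ := by
        apply Finset.sum_congr rfl
        intro σ _
        rw [norm_mul, norm_prod]
        have h : ‖((Equiv.Perm.sign σ : ℤ) : ℂ)‖ = 1 := by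
          rcases Int.units_eq_one_or (Equiv.Perm.sign σ) with h | h <;> rw [h] <;> simp
        rw [h, one_mul]
        rfl
    _ = ∑ f ∈ Finset.image (fun (σ : Equiv.Perm ι) (i : ι) => σ i) Finset.univ,
          ∏ i, ‖A i (f i)‖ := by
        rw [Finset.sum_image]
        intro a _ b _ h
        exact Equiv.coe_fn_injective h
    _ ≤ ∑ f : ι → ι, ∏ i, ‖A i (f i)‖ :=
        Finset.sum_le_sum_of_subset_of_nonneg (Finset.subset_univ _)
          (fun _ _ _ => Finset.prod_nonneg fun _ _ => norm_nonneg _)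
    _ = ∏ i, ∑ j, ‖A i j‖ := by
        rw [Finset.prod_univ_sum, Fintype.piFinset_univ]

/-- the combination of the first Hasse derivatives with the powers of `θ` -/
noncomputable def comb {R : Type*} [CommRing R] (J θ : ℕ) (P : R[X]) : R[X] :=
  ∑ i ∈ Finset.range (J + 1), C ((θ : R) ^ i) * hasseDeriv i P

lemma map_hasseDeriv {R S : Type*} [CommRing R] [CommRing S] (f : R →+* S) (i : ℕ) (P : R[X]) :
    (hasseDeriv i P).map f = hasseDeriv i (P.map f) := by
  ext k
  rw [coeff_map, hasseDeriv_coeff, hasseDeriv_coeff, coeff_map]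
  simp

lemma map_comb {R S : Type*} [CommRing R] [CommRing S] (f : R →+* S) (J θ : ℕ) (P : R[X]) :
    (comb J θ P).map f = comb J θ (P.map f) := by
  rw [comb, comb, Polynomial.map_sum]
  apply Finset.sum_congr rfl
  intro i _
  rw [Polynomial.map_mul, map_C, map_hasseDeriv]
  simp

lemma coeff_comb {R : Type*} [CommRing R] (J θ : ℕ) (P : R[X]) (k : ℕ) :
    (comb J θ P).coeff k =
      ∑ i ∈ Finset.range (J + 1), (θ : R) ^ i * (((k + i).choose i : R) * P.coeff (k + i)) := by
  rw [comb, finset_sum_coeff]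
  apply Finset.sum_congr rfl
  intro i _
  rw [coeff_C_mul, hasseDeriv_coeff]

lemma natDegree_comb {R : Type*} [CommRing R] (J θ : ℕ) (P : R[X]) :
    (comb J θ P).natDegree = P.natDegree := by
  by_cases hP : P = 0
  · subst hP
    simp [comb]
  have h1 : ∀ k, P.natDegree ≤ k → (comb J θ P).coeff k = P.coeff k := by
    intro k hk
    rw [coeff_comb, Finset.sum_range_succ', Finset.sum_eq_zero]
    · simp
    · intro i _
      rw [coeff_eq_zero_of_natDegree_lt (by omega)]
      simp
  apply le_antisymm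
  · rw [natDegree_le_iff_coeff_eq_zero]
    intro k hk
    rw [h1 k hk.le, coeff_eq_zero_of_natDegree_lt hk]
  · apply le_natDegree_of_ne_zero
    rw [h1 _ le_rfl]
    exact leadingCoeff_ne_zero.2 hP

lemma coeff_taylor_comb {R : Type*} [CommRing R] (J θ : ℕ) (P : R[X]) (t : R) (k : ℕ) :
    (taylor t (comb J θ P)).coeff k =
      ∑ i ∈ Finset.range (J + 1), (θ : R) ^ i *
        (((k + i).choose k : R) * (taylor t P).coeff (k + i)) := by
  rw [comb, map_sum, finset_sum_coeff]
  apply Finset.sum_congr rfl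
  intro i _
  rw [taylor_mul, taylor_C, coeff_C_mul, taylor_coeff, taylor_coeff]
  congr 1
  have h := congrArg (fun F => eval t (F P)) (hasseDeriv_comp (R := R) k i)
  simp only [LinearMap.comp_apply, LinearMap.smul_apply, eval_smul] at h
  rw [h]
  simp

lemma exists_theta (P : ℂ[X]) (hP : P ≠ 0) (n J : ℕ) (hn : P.natDegree ≤ n)
    (hmult : ∀ r, P.rootMultiplicity r ≤ J) :
    ∃ θ : ℕ, θ ≤ n * J ∧ ∀ r, P.IsRoot r → (comb J θ P).eval r ≠ 0 := by
  classical
  set F : ℂ → ℂ[X] := fun r => ∑ i ∈ Finset.range (J + 1), C ((taylor r P).coeff i) * X ^ i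
    with hF
  have hFc : ∀ r k, k ≤ J → (F r).coeff k = (taylor r P).coeff k := by
    intro r k hk
    simp only [hF, finset_sum_coeff, coeff_C_mul, coeff_X_pow, mul_ite, mul_one, mul_zero]
    rw [Finset.sum_ite_eq (Finset.range (J + 1)) k, if_pos (Finset.mem_range.2 (by omega))]
  have hF0 : ∀ r, F r ≠ 0 := by
    intro r h0
    have h1 := hFc r _ (hmult r)
    rw [h0, coeff_zero, rootMultiplicity_eq_natTrailingDegree, taylor_apply] at h1
    have h2 : P.comp (X + C r) ≠ 0 := by
      rw [← taylor_apply]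
      simpa using hP
    exact trailingCoeff_nonzero_iff_nonzero.2 h2 h1.symm
  have hFd : ∀ r, (F r).natDegree ≤ J := by
    intro r
    apply natDegree_sum_le_of_forall_le
    intro i hi
    rw [Finset.mem_range] at hi
    exact (natDegree_C_mul_X_pow_le _ _).trans (by omega)
  set G : ℂ[X] := ∏ r ∈ P.roots.toFinset, F r with hG
  have hG0 : G ≠ 0 := Finset.prod_ne_zero_iff.2 fun r _ => hF0 r
  have hGd : G.natDegree ≤ n * J := by
    refine (natDegree_prod_le _ _).trans ?_
    refine (Finset.sum_le_card_nsmul _ _ J fun r _ => hFd r).trans ?_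
    rw [smul_eq_mul]
    gcongr
    exact (Multiset.toFinset_card_le _).trans ((card_roots' P).trans hn)
  by_contra hcon
  push Not at hcon
  apply hG0
  apply eq_zero_of_natDegree_lt_card_of_eval_eq_zero' G
    ((Finset.range (n * J + 1)).image (fun i : ℕ => (i : ℂ)))
  · intro i hi
    obtain ⟨θ, hθ, rfl⟩ := Finset.mem_image.1 hi
    rw [Finset.mem_range] at hθ
    obtain ⟨r, hr, hr'⟩ := hcon θ (by omega)
    rw [hG, eval_prod]
    apply Finset.prod_eq_zero (i := r)
    · rw [Multiset.mem_toFinset, mem_roots hP]; exact hr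
    · rw [← hr', comb, eval_finset_sum]
      simp only [hF, eval_finset_sum]
      apply Finset.sum_congr rfl
      intro i _
      rw [eval_mul, eval_mul, eval_C, eval_C, eval_pow, eval_X, taylor_coeff, mul_comm]
  · rw [Finset.card_image_of_injective _ Nat.cast_injective, Finset.card_range]
    omega

/-- **determinant lemma** -/
theorem det_lemma (Q : ℤ[X]) (hQ : Q ≠ 0) (n J : ℕ) (hn : Q.natDegree ≤ n) (hJ : 1 ≤ J)
    (hmult : ∀ r : ℂ, (Q.map (Int.castRingHom ℂ)).rootMultiplicity r ≤ J) (t : ℂ) (e : ℝ)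
    (hsmall : ∀ j < 2 * J, ‖(taylor t (Q.map (Int.castRingHom ℂ))).coeff j‖ ≤ e) :
    1 ≤ e ^ J * (2 * n * (J + 1) * (n * J + 1) ^ J * 4 ^ n * (1 + ‖t‖) ^ n *
      len (Q.map (Int.castRingHom ℂ))) ^ (2 * n) := by
  set P : ℂ[X] := Q.map (Int.castRingHom ℂ) with hPdef
  have hinj : Function.Injective (Int.castRingHom ℂ) := Int.cast_injective
  have hP0 : P ≠ 0 := (Polynomial.map_ne_zero_iff hinj).2 hQ
  have hdeg : P.natDegree = Q.natDegree := natDegree_map_eq_of_injective hinj Q
  have hlead : 1 ≤ ‖P.leadingCoeff‖ := by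
    rw [hPdef, leadingCoeff_map_of_injective hinj]
    have h1 : (1 : ℤ) ≤ |Q.leadingCoeff| := Int.one_le_abs (leadingCoeff_ne_zero.2 hQ)
    rw [eq_intCast, Complex.norm_intCast]
    exact_mod_cast h1
  have he0 : 0 ≤ e := (norm_nonneg _).trans (hsmall 0 (by omega))
  have hlen : 1 ≤ len P := hlead.trans (norm_coeff_le_len P _)
  set L : ℝ := (1 + ‖t‖) ^ n * len P with hL
  have ht1 : (1 : ℝ) ≤ 1 + ‖t‖ := by linarith [norm_nonneg t]
  have hL1 : 1 ≤ L := by
    rw [hL]; exact one_le_mul_of_one_le_of_one_le (one_le_pow₀ ht1) hlen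
  set W : ℝ := (J + 1) * (n * J + 1) ^ J * 4 ^ n with hW
  have hW1 : 1 ≤ W := by
    rw [hW]
    refine one_le_mul_of_one_le_of_one_le (one_le_mul_of_one_le_of_one_le ?_ (one_le_pow₀ ?_))
      (one_le_pow₀ (by norm_num))
    · have : (0 : ℝ) ≤ J := Nat.cast_nonneg _
      linarith
    · have : (0 : ℝ) ≤ n * J := by positivity
      linarith
  have hbase : (2 * n * (J + 1) * (n * J + 1) ^ J * 4 ^ n * (1 + ‖t‖) ^ n * len P : ℝ) =
      2 * n * W * L := by rw [hW, hL]; ring
  rw [hbase]
  have hbig : n ≠ 0 → 1 ≤ 2 * n * W * L := by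
    intro hn0
    have h1 : (1 : ℝ) ≤ n := by exact_mod_cast Nat.one_le_iff_ne_zero.2 hn0
    exact one_le_mul_of_one_le_of_one_le (one_le_mul_of_one_le_of_one_le (by linarith) hW1) hL1
  by_cases hNJ : P.natDegree < J
  · have h1 : 1 ≤ e := by
      have h2 := hsmall P.natDegree (by omega)
      rw [coeff_taylor_natDegree] at h2
      exact hlead.trans h2
    refine one_le_mul_of_one_le_of_one_le (one_le_pow₀ h1) ?_
    by_cases hn0 : n = 0
    · subst hn0; simp
    · exact one_le_pow₀ (hbig hn0)
  push Not at hNJ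
  have hn0 : n ≠ 0 := by omega
  obtain ⟨θ, hθ, hroot⟩ := exists_theta P hP0 n J (by omega) hmult
  set Pc : ℂ[X] := comb J θ P with hPc
  have hPcdeg : Pc.natDegree = P.natDegree := natDegree_comb _ _ _
  have hcop : IsCoprime P Pc := by
    rw [Polynomial.isCoprime_iff_aeval_ne_zero_of_isAlgClosed (k := ℂ) ℂ]
    intro a
    by_cases ha : P.IsRoot a
    · right
      simpa [coe_aeval_eq_eval] using hroot a ha
    · left
      simpa [coe_aeval_eq_eval, IsRoot.def] using ha
  have hres0 : resultant P Pc ≠ 0 := resultant_ne_zero P Pc hcop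
  have hres1 : 1 ≤ ‖resultant P Pc‖ := by
    have h1 : resultant P Pc = ((resultant Q (comb J θ Q) P.natDegree Pc.natDegree : ℤ) : ℂ) := by
      have h2 := resultant_map_map Q (comb J θ Q) P.natDegree Pc.natDegree (Int.castRingHom ℂ)
      rw [map_comb] at h2
      exact h2
    rw [h1] at hres0 ⊢
    rw [Complex.norm_intCast]
    have h3 : (resultant Q (comb J θ Q) P.natDegree Pc.natDegree : ℤ) ≠ 0 := by
      intro h; rw [h] at hres0; simp at hres0
    exact_mod_cast Int.one_le_abs h3
  have hcP : ∀ k, ‖(taylor t P).coeff k‖ ≤ L := fun k =>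
    (norm_coeff_le_len _ _).trans (len_taylor_le P t n (by omega))
  have hcPc : ∀ (k : ℕ) (c : ℝ), 0 ≤ c →
      (∀ i ≤ J, ‖(taylor t P).coeff (k + i)‖ ≤ c) → ‖(taylor t Pc).coeff k‖ ≤ W * c := by
    intro k c hc hk
    rw [hPc, coeff_taylor_comb]
    refine (norm_sum_le _ _).trans ?_
    have h1 : ∀ i ∈ Finset.range (J + 1), ‖(θ : ℂ) ^ i *
        (((k + i).choose k : ℂ) * (taylor t P).coeff (k + i))‖ ≤
        (n * J + 1) ^ J * (4 ^ n * c) := by
      intro i hi
      rw [Finset.mem_range] at hi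
      rw [norm_mul, norm_mul, norm_pow, Complex.norm_natCast, Complex.norm_natCast]
      have hθ' : (θ : ℝ) ≤ n * J + 1 := by
        have : (θ : ℝ) ≤ n * J := by exact_mod_cast hθ
        linarith
      have h2 : (θ : ℝ) ^ i ≤ (n * J + 1) ^ J := by
        calc (θ : ℝ) ^ i ≤ (n * J + 1) ^ i := by gcongr
          _ ≤ (n * J + 1) ^ J := by
            apply pow_le_pow_right₀ _ (by omega)
            have : (0 : ℝ) ≤ n * J := by positivity
            linarith
      have h3 : ((k + i).choose k : ℝ) * ‖(taylor t P).coeff (k + i)‖ ≤ 4 ^ n * c := by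
        by_cases hki : k + i ≤ n
        · have h4 : ((k + i).choose k : ℝ) ≤ 4 ^ n := by
            have h5 : (k + i).choose k ≤ 4 ^ n := by
              calc (k + i).choose k ≤ 2 ^ (k + i) := Nat.choose_le_two_pow _ _
                _ ≤ 2 ^ n := Nat.pow_le_pow_right (by norm_num) hki
                _ ≤ 4 ^ n := Nat.pow_le_pow_left (by norm_num) n
            exact_mod_cast h5
          have h6 := hk i (by omega)
          gcongr
        · rw [coeff_eq_zero_of_natDegree_lt (by rw [natDegree_taylor]; omega), norm_zero, mul_zero]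
          positivity
      gcongr
    refine (Finset.sum_le_sum h1).trans ?_
    rw [Finset.sum_const, Finset.card_range, nsmul_eq_mul, hW]
    push_cast
    apply le_of_eq
    ring
  -- rows of the Sylvester matrix
  set a := (taylor t P).natDegree with ha
  set b := (taylor t Pc).natDegree with hb
  have haN : a = P.natDegree := natDegree_taylor P t
  have hbN : b = P.natDegree := by rw [hb, natDegree_taylor, hPcdeg]
  have hab : a + b ≤ 2 * n := by omega
  have hentry : ∀ (i j : Fin (a + b)) (c : ℝ), 0 ≤ c →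
      (∀ k ≤ (i : ℕ), ‖(taylor t P).coeff k‖ ≤ c ∧ ‖(taylor t Pc).coeff k‖ ≤ W * c) →
      ‖sylvester (taylor t P) (taylor t Pc) a b i j‖ ≤ W * c := by
    intro i j c hc hk
    have hWc : c ≤ W * c := le_mul_of_one_le_left hc hW1
    unfold sylvester
    rw [Matrix.of_apply]
    induction j using Fin.addCases with
    | left j =>
      rw [Fin.addCases_left]
      split_ifs
      · exact (hk _ (Nat.sub_le _ _)).2
      · rw [norm_zero]; exact hc.trans hWc
    | right j =>
      rw [Fin.addCases_right]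
      split_ifs
      · exact ((hk _ (Nat.sub_le _ _)).1).trans hWc
      · rw [norm_zero]; exact hc.trans hWc
  have hrow : ∀ (i : Fin (a + b)) (c : ℝ), 0 ≤ c →
      (∀ k ≤ (i : ℕ), ‖(taylor t P).coeff k‖ ≤ c ∧ ‖(taylor t Pc).coeff k‖ ≤ W * c) →
      ∑ j, ‖sylvester (taylor t P) (taylor t Pc) a b i j‖ ≤ 2 * n * W * c := by
    intro i c hc hk
    refine (Finset.sum_le_sum fun j _ => hentry i j c hc hk).trans ?_
    rw [Finset.sum_const, Finset.card_univ, Fintype.card_fin, nsmul_eq_mul]
    have h1 : ((a + b : ℕ) : ℝ) ≤ 2 * n := by exact_mod_cast hab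
    calc ((a + b : ℕ) : ℝ) * (W * c) ≤ (2 * n) * (W * c) := by gcongr
      _ = 2 * n * W * c := by ring
  have hbound : ‖resultant P Pc‖ ≤
      ∏ i : Fin (a + b), (if (i : ℕ) < J then 2 * n * W * e else 2 * n * W * L) := by
    rw [← resultant_taylor P Pc t]
    unfold resultant
    refine (norm_det_le_prod _).trans ?_
    apply Finset.prod_le_prod
    · intro i _
      exact Finset.sum_nonneg fun _ _ => norm_nonneg _
    · intro i _
      split_ifs with hi
      · apply hrow i e he0
        intro k hk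
        refine ⟨hsmall k (by omega), hcPc k e he0 ?_⟩
        intro l hl
        exact hsmall _ (by omega)
      · apply hrow i L (by linarith)
        intro k _
        exact ⟨hcP k, hcPc k L (by linarith) fun l _ => hcP _⟩
  have hprod : (∏ i : Fin (a + b), (if (i : ℕ) < J then 2 * n * W * e else 2 * n * W * L)) ≤
      e ^ J * (2 * n * W * L) ^ (2 * n) := by
    rw [Fin.prod_univ_eq_prod_range (fun i => if i < J then 2 * n * W * e else 2 * n * W * L)
      (a + b)]
    rw [← Finset.prod_range_mul_prod_Ico _ (show J ≤ a + b by omega)]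
    have h1 : ∏ k ∈ Finset.range J, (if k < J then 2 * n * W * e else 2 * n * W * L) =
        (2 * n * W * e) ^ J := by
      rw [Finset.prod_congr rfl (g := fun _ => 2 * n * W * e), Finset.prod_const,
        Finset.card_range]
      intro k hk
      rw [Finset.mem_range] at hk
      rw [if_pos hk]
    have h2 : ∏ k ∈ Finset.Ico J (a + b), (if k < J then 2 * n * W * e else 2 * n * W * L) =
        (2 * n * W * L) ^ (a + b - J) := by
      rw [Finset.prod_congr rfl (g := fun _ => 2 * n * W * L), Finset.prod_const,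
        Nat.card_Ico]
      intro k hk
      rw [Finset.mem_Ico] at hk
      rw [if_neg (by omega)]
    rw [h1, h2, mul_pow, mul_comm ((2 * n * W : ℝ) ^ J) (e ^ J), mul_assoc]
    apply mul_le_mul_of_nonneg_left _ (pow_nonneg he0 _)
    have hx : (0 : ℝ) ≤ 2 * n * W := by positivity
    calc (2 * n * W) ^ J * (2 * n * W * L) ^ (a + b - J)
        ≤ (2 * n * W * L) ^ J * (2 * n * W * L) ^ (a + b - J) := by
          apply mul_le_mul_of_nonneg_right _ (pow_nonneg (by positivity) _)
          apply pow_le_pow_left₀ hx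
          exact le_mul_of_one_le_right hx hL1
      _ = (2 * n * W * L) ^ (a + b) := by
          rw [← pow_add]; congr 1; omega
      _ ≤ (2 * n * W * L) ^ (2 * n) := pow_le_pow_right₀ (hbig hn0) hab
  exact hres1.trans (hbound.trans hprod)

end Pool.Agent.LGO.Det
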