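import Mathlib
import Pool.Agent.LGO.B.DetLen

/-!
# LGO, part (4c): small Taylor coefficients of a quotient

Statement to prove: `small_div`.

PROOF.  For `F : ℂ[X]` put `S F = ∑ j ∈ range k, ‖(taylor t F).coeff j‖ * ρ ^ j`.
(1) One root: if `2 ρ ≤ ‖t - r‖` then `ρ * S G ≤ S ((X - C r) * G)`: put `β = r - t`; then
`taylor t ((X - C r) * G) = (X - C β) * taylor t G`, its coefficient of order `j` is
`g_(j-1) - β g_j` (`g_(-1) = 0`), so `‖..‖ ≥ ‖β‖ ‖g_j‖ - ‖g_(j-1)‖` and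
`S ((X - C r) * G) ≥ ‖β‖ S G - ρ S G ≥ ρ S G`.
(2) Induction over the multiset of roots: `A = C a * (A.roots.map (X - C ·)).prod`
(`IsAlgClosed.splits`, `Polynomial.C_leadingCoeff_mul_prod_multiset_X_sub_C` or
`Polynomial.Splits.eq_prod_roots`), `card A.roots = A.natDegree ≤ n`, `‖a‖ ≥ 1`:
`ρ ^ n * S B ≤ ρ ^ A.natDegree * S B ≤ ‖a‖ * .. ≤ S (A * B)`.
(3) `S (A * B) ≤ ε * ∑ j ∈ range k, ρ ^ j ≤ 2 ε` because `ρ ≤ 1 / 2` (if `k > 0` then `ε ≥ 0`).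
(4) For `j < k`: `‖(taylor t B).coeff j‖ * ρ ^ j ≤ S B ≤ ρ⁻¹ ^ n * 2 ε`, so
`‖(taylor t B).coeff j‖ ≤ 2 ε ρ⁻¹ ^ (n + j) ≤ 2 ε ρ⁻¹ ^ (n + k)`.
-/

namespace Pool.Agent.LGO.Det

open Polynomial

/-- weighted sum of the Taylor coefficients of order `< k` -/
noncomputable def nmS (t : ℂ) (ρ : ℝ) (k : ℕ) (F : ℂ[X]) : ℝ :=
  ∑ j ∈ Finset.range k, ‖(taylor t F).coeff j‖ * ρ ^ j

theorem nmS_seq (g h : ℕ → ℂ) (β : ℂ) (ρ : ℝ) (hρ : 0 < ρ)
    (h0 : h 0 = - (β * g 0)) (hs : ∀ j, h (j + 1) = g j - β * g (j + 1)) (k : ℕ) :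
    ‖β‖ * ∑ j ∈ Finset.range (k + 1), ‖g j‖ * ρ ^ j ≤
      ∑ j ∈ Finset.range (k + 1), ‖h j‖ * ρ ^ j +
        ρ * ∑ j ∈ Finset.range k, ‖g j‖ * ρ ^ j := by
  induction k with
  | zero => simp [h0]
  | succ k ih =>
    rw [Finset.sum_range_succ, Finset.sum_range_succ (fun j => ‖h j‖ * ρ ^ j) (k + 1),
      Finset.sum_range_succ (fun j => ‖g j‖ * ρ ^ j) k]
    have h1 : ‖β‖ * ‖g (k + 1)‖ ≤ ‖h (k + 1)‖ + ‖g k‖ := by
      have h2 : β * g (k + 1) = g k - h (k + 1) := by rw [hs]; ring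
      have h3 : ‖β * g (k + 1)‖ ≤ ‖g k‖ + ‖h (k + 1)‖ := by
        rw [h2]; exact norm_sub_le _ _
      rw [norm_mul] at h3
      linarith
    have h4 : (‖β‖ * ‖g (k + 1)‖) * ρ ^ (k + 1) ≤ (‖h (k + 1)‖ + ‖g k‖) * ρ ^ (k + 1) :=
      mul_le_mul_of_nonneg_right h1 (by positivity)
    have h5 : ρ * (∑ j ∈ Finset.range k, ‖g j‖ * ρ ^ j + ‖g k‖ * ρ ^ k) =
        ρ * ∑ j ∈ Finset.range k, ‖g j‖ * ρ ^ j + ‖g k‖ * ρ ^ (k + 1) := by ring
    rw [h5, mul_add]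
    have h6 : ‖β‖ * (‖g (k + 1)‖ * ρ ^ (k + 1)) = (‖β‖ * ‖g (k + 1)‖) * ρ ^ (k + 1) := by ring
    rw [Finset.sum_range_succ] at ih
    rw [Finset.sum_range_succ (fun j => ‖h j‖ * ρ ^ j) k] at ih
    rw [Finset.sum_range_succ (fun j => ‖h j‖ * ρ ^ j) k, h6]
    linarith

theorem nmS_root (G : ℂ[X]) (t r : ℂ) (ρ : ℝ) (k : ℕ) (hρ : 0 < ρ) (hr : 2 * ρ ≤ ‖t - r‖) :
    ρ * nmS t ρ k G ≤ nmS t ρ k ((X - C r) * G) := by
  have hT : taylor t ((X - C r) * G) = X * taylor t G - C (r - t) * taylor t G := by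
    rw [taylor_mul, map_sub, taylor_X, taylor_C, C_sub]
    ring
  rcases k with _ | k
  · simp [nmS]
  have h1 := nmS_seq (fun j => (taylor t G).coeff j)
    (fun j => (taylor t ((X - C r) * G)).coeff j) (r - t) ρ hρ
    (by simp only [hT]; rw [coeff_sub, coeff_C_mul, mul_coeff_zero]; simp)
    (by intro j; simp only [hT]; rw [coeff_sub, coeff_C_mul, coeff_X_mul]) k
  have h2 : ‖r - t‖ = ‖t - r‖ := norm_sub_rev _ _
  have h3 : ∑ j ∈ Finset.range k, ‖(taylor t G).coeff j‖ * ρ ^ j ≤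
      ∑ j ∈ Finset.range (k + 1), ‖(taylor t G).coeff j‖ * ρ ^ j := by
    rw [Finset.sum_range_succ]
    have : 0 ≤ ‖(taylor t G).coeff k‖ * ρ ^ k := by positivity
    linarith
  have h4 : 0 ≤ ∑ j ∈ Finset.range (k + 1), ‖(taylor t G).coeff j‖ * ρ ^ j :=
    Finset.sum_nonneg fun j _ => by positivity
  unfold nmS
  simp only [h2] at h1
  have h5 : 2 * ρ * ∑ j ∈ Finset.range (k + 1), ‖(taylor t G).coeff j‖ * ρ ^ j ≤
      ‖t - r‖ * ∑ j ∈ Finset.range (k + 1), ‖(taylor t G).coeff j‖ * ρ ^ j :=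
    mul_le_mul_of_nonneg_right hr h4
  have h6 : ρ * ∑ j ∈ Finset.range k, ‖(taylor t G).coeff j‖ * ρ ^ j ≤
      ρ * ∑ j ∈ Finset.range (k + 1), ‖(taylor t G).coeff j‖ * ρ ^ j :=
    mul_le_mul_of_nonneg_left h3 hρ.le
  linarith

theorem nmS_nonneg (F : ℂ[X]) (t : ℂ) (ρ : ℝ) (k : ℕ) (hρ : 0 < ρ) : 0 ≤ nmS t ρ k F :=
  Finset.sum_nonneg fun j _ => by positivity

theorem nmS_multiset (G : ℂ[X]) (t : ℂ) (ρ : ℝ) (k : ℕ) (hρ : 0 < ρ) (s : Multiset ℂ)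
    (hs : ∀ r ∈ s, 2 * ρ ≤ ‖t - r‖) :
    ρ ^ (Multiset.card s) * nmS t ρ k G ≤
      nmS t ρ k ((s.map fun r => X - C r).prod * G) := by
  induction s using Multiset.induction_on with
  | empty => simp
  | cons r s ih =>
    rw [Multiset.map_cons, Multiset.prod_cons, Multiset.card_cons, mul_assoc]
    have h1 := nmS_root ((s.map fun r => X - C r).prod * G) t r ρ k hρ
      (hs r (Multiset.mem_cons_self r s))
    have h2 := ih fun x hx => hs x (Multiset.mem_cons_of_mem hx)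
    calc ρ ^ (Multiset.card s + 1) * nmS t ρ k G
        = ρ * (ρ ^ (Multiset.card s) * nmS t ρ k G) := by ring
      _ ≤ ρ * nmS t ρ k ((s.map fun r => X - C r).prod * G) :=
        mul_le_mul_of_nonneg_left h2 hρ.le
      _ ≤ _ := h1

theorem nmS_C_mul (F : ℂ[X]) (a t : ℂ) (ρ : ℝ) (k : ℕ) :
    nmS t ρ k (C a * F) = ‖a‖ * nmS t ρ k F := by
  unfold nmS
  rw [Finset.mul_sum]
  refine Finset.sum_congr rfl fun j _ => ?_
  rw [taylor_mul, taylor_C, coeff_C_mul, norm_mul]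
  ring

theorem nmS_geom (ρ : ℝ) (hρ : 0 < ρ) (hρ2 : ρ ≤ 1 / 2) (k : ℕ) :
    ∑ j ∈ Finset.range k, ρ ^ j ≤ 2 := by
  have h1 : (∑ j ∈ Finset.range k, ρ ^ j) * (1 - ρ) = 1 - ρ ^ k := by
    have := geom_sum_mul ρ k
    linarith
  have h2 : 0 ≤ ∑ j ∈ Finset.range k, ρ ^ j := Finset.sum_nonneg fun j _ => by positivity
  have h3 : 0 < ρ ^ k := by positivity
  nlinarith

/-- if `A * B` has small Taylor coefficients of order `< k` at `t` and the roots of `A` are not too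
close to `t` then `B` has small Taylor coefficients of order `< k` at `t` -/
theorem small_div (A B : ℂ[X]) (t : ℂ) (ρ ε : ℝ) (n k : ℕ) (hρ : 0 < ρ) (hρ2 : ρ ≤ 1 / 2)
    (hA : 1 ≤ ‖A.leadingCoeff‖) (hn : A.natDegree ≤ n)
    (hroots : ∀ r, A.IsRoot r → 2 * ρ ≤ ‖t - r‖)
    (hsmall : ∀ j < k, ‖(taylor t (A * B)).coeff j‖ ≤ ε) :
    ∀ j < k, ‖(taylor t B).coeff j‖ ≤ 2 * ε * ρ⁻¹ ^ (n + k) := by
  intro j hj
  have hk : 0 < k := lt_of_le_of_lt (Nat.zero_le j) hj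
  have hε : 0 ≤ ε := le_trans (norm_nonneg _) (hsmall 0 hk)
  have hA0 : A ≠ 0 := by
    rintro rfl
    simp at hA
    linarith
  have hsplit : A.Splits := IsAlgClosed.splits A
  have hcard : Multiset.card A.roots = A.natDegree := (Polynomial.Splits.natDegree_eq_card_roots hsplit).symm
  have hprod : A = C A.leadingCoeff * (A.roots.map fun r => X - C r).prod :=
    Polynomial.Splits.eq_prod_roots hsplit
  have h1 := nmS_multiset B t ρ k hρ A.roots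
    (fun r hr => hroots r ((mem_roots hA0).1 hr))
  have h2 : nmS t ρ k (A * B) = ‖A.leadingCoeff‖ *
      nmS t ρ k ((A.roots.map fun r => X - C r).prod * B) := by
    rw [← nmS_C_mul, ← mul_assoc, ← hprod]
  have h3 : nmS t ρ k (A * B) ≤ 2 * ε := by
    have h4 : nmS t ρ k (A * B) ≤ ∑ j ∈ Finset.range k, ε * ρ ^ j :=
      Finset.sum_le_sum fun i hi =>
        mul_le_mul_of_nonneg_right (hsmall i (Finset.mem_range.1 hi)) (by positivity)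
    rw [← Finset.mul_sum] at h4
    have h5 := mul_le_mul_of_nonneg_left (nmS_geom ρ hρ hρ2 k) hε
    linarith
  have h6 : nmS t ρ k ((A.roots.map fun r => X - C r).prod * B) ≤ nmS t ρ k (A * B) := by
    rw [h2]
    exact le_mul_of_one_le_left (nmS_nonneg _ t ρ k hρ) hA
  have h7 : ρ ^ A.natDegree * nmS t ρ k B ≤ 2 * ε := by
    rw [← hcard]; linarith
  have h8 : ‖(taylor t B).coeff j‖ * ρ ^ j ≤ nmS t ρ k B := by
    unfold nmS
    exact Finset.single_le_sum (f := fun j => ‖(taylor t B).coeff j‖ * ρ ^ j)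
      (fun i _ => by positivity) (Finset.mem_range.2 hj)
  have h9 : ρ ^ (n + k) ≤ ρ ^ (A.natDegree + j) :=
    pow_le_pow_of_le_one hρ.le (by linarith) (by omega)
  have h10 : ‖(taylor t B).coeff j‖ * ρ ^ (n + k) ≤ 2 * ε := by
    calc ‖(taylor t B).coeff j‖ * ρ ^ (n + k)
        ≤ ‖(taylor t B).coeff j‖ * ρ ^ (A.natDegree + j) :=
          mul_le_mul_of_nonneg_left h9 (norm_nonneg _)
      _ = ρ ^ A.natDegree * (‖(taylor t B).coeff j‖ * ρ ^ j) := by ring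
      _ ≤ ρ ^ A.natDegree * nmS t ρ k B := mul_le_mul_of_nonneg_left h8 (by positivity)
      _ ≤ 2 * ε := h7
  have h11 : 0 < ρ ^ (n + k) := by positivity
  rw [inv_pow, ← div_eq_mul_inv, le_div_iff₀ h11]
  exact h10

end Pool.Agent.LGO.Det
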