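import Mathlib
import Pool.Agent.LGO.B.DetLen

/-!
# LGO, part (4c): the norm of a polynomial with coefficients in a number field

Statement to prove: `exists_norm`.

PROOF.  Let `d = finrank ℚ K`, `q : K[X]` the polynomial with `q.map (algebraMap K ℂ) = p` (e.g.
`q = ∑ i ∈ range (p.natDegree + 1), monomial i ⟨p.coeff i, hmem i⟩`; or
`Polynomial.toSubring`, or `Polynomial.lifts`).  Put `F = ∏ σ : K →ₐ[ℚ] ℂ, q.map σ` in `ℂ[X]`
(`Fintype (K →ₐ[ℚ] ℂ)` has card `d`: `AlgHom.card`).
(1) `F` has rational coefficients: for every `m : ℕ`,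
`F.eval m = ∏ σ, σ (q.eval m) = algebraMap ℚ ℂ (Algebra.norm ℚ (q.eval m))`
(`Algebra.norm_eq_prod_embeddings`).  So `F` takes rational values at all naturals.  A complex
polynomial with rational values at all naturals is the image of a rational polynomial: let
`G = Lagrange.interpolate (range (F.natDegree + 1)) (fun i => (i : ℚ)) (the rational values)`; then
`G.map (algebraMap ℚ ℂ) = F` because both have degree `< F.natDegree + 1` and agree at these points
(`Polynomial.eq_of_degrees_lt_of_eval_finset_eq`).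
(Other way: `∏ σ` is fixed by the automorphisms of a normal closure.)
(2) the coefficients of `F` are integral over `ℤ`: sums of products of integral elements (each
coefficient of `q.map σ` is integral: `IsIntegral.map`; e.g. `F` is in the image of
`(integralClosure ℤ ℂ)[X]`, a product of polynomials which lift).  So the coefficients of `G` are
integral and rational, so integers (`IsIntegrallyClosed.isIntegral_iff`; integrality descends along
the injection `ℚ → ℂ`: `isIntegral_algebraMap_iff`).  This gives `P : ℤ[X]` with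
`P.map (Int.castRingHom ℂ) = F`.
(3) `p` is the factor of `F` at the inclusion `σ₀ = K.val`; `R = ∏ σ ∈ univ.erase σ₀, q.map σ`.
`F ≠ 0` because all factors are nonzero (`Polynomial.map_ne_zero`).
(4) degrees: `natDegree_prod_le`, `natDegree_map_le`; lengths: `len_prod_le`, `len_le`
(`len (q.map σ) ≤ (T + 1) * B` by `hB`; a ring homomorphism `K →+* ℂ` and an algebra homomorphism
`K →ₐ[ℚ] ℂ` are the same: `σ.toRingHom`).
-/

namespace Pool.Agent.LGO.Det

open Polynomial

/-- a complex polynomial with rational values at all naturals has rational coefficients -/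
lemma nm_rat_of_values (F : ℂ[X]) (r : ℕ → ℚ) (h : ∀ m : ℕ, F.eval (m : ℂ) = (r m : ℂ)) :
    ∃ G : ℚ[X], G.map (algebraMap ℚ ℂ) = F := by
  classical
  set s : Finset ℕ := Finset.range (F.natDegree + 1) with hs
  have hinj : Set.InjOn (fun i : ℕ => (i : ℚ)) (s : Set ℕ) := fun a _ b _ hab =>
    Nat.cast_injective hab
  refine ⟨Lagrange.interpolate s (fun i : ℕ => (i : ℚ)) r, ?_⟩
  have hinj' : Set.InjOn (fun i : ℕ => (i : ℂ)) (s : Set ℕ) := fun a _ b _ hab =>
    Nat.cast_injective hab
  refine Polynomial.eq_of_degrees_lt_of_eval_index_eq s hinj' ?_ ?_ ?_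
  · rw [degree_map]
    exact Lagrange.degree_interpolate_lt _ hinj
  · rw [hs, Finset.card_range]
    refine lt_of_le_of_lt degree_le_natDegree ?_
    exact_mod_cast Nat.lt_succ_self _
  · intro i hi
    have h1 : ((Lagrange.interpolate s (fun i : ℕ => (i : ℚ)) r).map (algebraMap ℚ ℂ)).eval
        ((i : ℕ) : ℂ) = algebraMap ℚ ℂ
          ((Lagrange.interpolate s (fun i : ℕ => (i : ℚ)) r).eval (i : ℚ)) := by
      rw [Polynomial.eval_natCast_map]
    rw [h1, Lagrange.eval_interpolate_at_node r hinj hi, h i]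
    rfl

/-- products of polynomials with integral coefficients have integral coefficients -/
lemma nm_integral_prod {ι : Type*} (s : Finset ι) (f : ι → ℂ[X])
    (h : ∀ j ∈ s, ∀ i, IsIntegral ℤ ((f j).coeff i)) (i : ℕ) :
    IsIntegral ℤ ((∏ j ∈ s, f j).coeff i) := by
  have key : ∀ g : ℂ[X], g ∈ Polynomial.lifts (algebraMap (integralClosure ℤ ℂ) ℂ) ↔
      ∀ i, IsIntegral ℤ (g.coeff i) := by
    intro g
    rw [Polynomial.lifts_iff_coeff_lifts]
    constructor
    · intro hg i
      obtain ⟨y, hy⟩ := hg i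
      rw [← hy]
      exact y.2
    · intro hg i
      exact ⟨⟨g.coeff i, hg i⟩, rfl⟩
  have h1 : (∏ j ∈ s, f j) ∈ Polynomial.lifts (algebraMap (integralClosure ℤ ℂ) ℂ) :=
    prod_mem fun j hj => (key _).2 (h j hj)
  exact (key _).1 h1 i

/-- a complex polynomial with rational and integral coefficients has integer coefficients -/
lemma nm_int_of_rat (F : ℂ[X]) (G : ℚ[X]) (hG : G.map (algebraMap ℚ ℂ) = F)
    (h : ∀ i, IsIntegral ℤ (F.coeff i)) : ∃ P : ℤ[X], P.map (Int.castRingHom ℂ) = F := by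
  rw [← Polynomial.mem_lifts, Polynomial.lifts_iff_coeff_lifts]
  intro i
  have h1 : IsIntegral ℤ (algebraMap ℚ ℂ (G.coeff i)) := by
    rw [← Polynomial.coeff_map, hG]
    exact h i
  rw [isIntegral_algebraMap_iff (algebraMap ℚ ℂ).injective] at h1
  obtain ⟨y, hy⟩ := IsIntegrallyClosed.isIntegral_iff.1 h1
  refine ⟨y, ?_⟩
  rw [← hG, Polynomial.coeff_map, ← hy]
  simp

/-- **the norm of a polynomial with integral coefficients in a number field** -/
theorem exists_norm (K : IntermediateField ℚ ℂ) [FiniteDimensional ℚ K] (p : ℂ[X]) (hp : p ≠ 0)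
    (hmem : ∀ i, p.coeff i ∈ K) (hint : ∀ i, IsIntegral ℤ (p.coeff i)) (T : ℕ)
    (hT : p.natDegree ≤ T) (B : ℝ)
    (hB : ∀ (i : ℕ) (σ : K →+* ℂ), ‖σ ⟨p.coeff i, hmem i⟩‖ ≤ B) :
    ∃ (P : ℤ[X]) (R : ℂ[X]), P ≠ 0 ∧ P.map (Int.castRingHom ℂ) = p * R ∧
      P.natDegree ≤ Module.finrank ℚ K * T ∧
      R.natDegree ≤ (Module.finrank ℚ K - 1) * T ∧
      len R ≤ ((T + 1) * B) ^ (Module.finrank ℚ K - 1) ∧
      len (P.map (Int.castRingHom ℂ)) ≤ ((T + 1) * B) ^ Module.finrank ℚ K := by
  classical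
  set d := Module.finrank ℚ K with hd
  have hB0 : 0 ≤ B := (norm_nonneg _).trans (hB 0 (algebraMap K ℂ))
  obtain ⟨q, hq, hqc⟩ : ∃ q : K[X], q.map (algebraMap K ℂ) = p ∧
      ∀ i, q.coeff i = ⟨p.coeff i, hmem i⟩ := by
    refine ⟨∑ i ∈ Finset.range (p.natDegree + 1), monomial i (⟨p.coeff i, hmem i⟩ : K), ?_, ?_⟩
    · rw [Polynomial.map_sum]
      simp only [map_monomial]
      exact p.as_sum_range.symm
    · intro i
      apply (algebraMap K ℂ).injective
      rw [← Polynomial.coeff_map, Polynomial.map_sum]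
      simp only [map_monomial]
      have h1 : (∑ x ∈ Finset.range (p.natDegree + 1),
          (monomial x) ((algebraMap K ℂ) ⟨p.coeff x, hmem x⟩)) = p := p.as_sum_range.symm
      rw [h1]
      rfl
  have hq0 : q ≠ 0 := by
    rintro rfl
    apply hp
    rw [← hq, Polynomial.map_zero]
  have hqdeg : q.natDegree ≤ T := by
    rw [← hq, Polynomial.natDegree_map] at hT
    exact hT
  let g : (K →ₐ[ℚ] ℂ) → ℂ[X] := fun σ => q.map (σ : K →+* ℂ)
  have hgdeg : ∀ σ, (g σ).natDegree ≤ T := fun σ => by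
    simp only [g]
    rw [Polynomial.natDegree_map]
    exact hqdeg
  have hg0 : ∀ σ, g σ ≠ 0 := fun σ => by
    simp only [g]
    exact (Polynomial.map_ne_zero_iff (σ : K →+* ℂ).injective).2 hq0
  have hglen : ∀ σ, len (g σ) ≤ (T + 1) * B := fun σ => by
    refine len_le _ T B (hgdeg σ) fun i => ?_
    simp only [g]
    rw [Polynomial.coeff_map, hqc]
    exact hB i _
  have hgint : ∀ σ i, IsIntegral ℤ ((g σ).coeff i) := fun σ i => by
    simp only [g]
    rw [Polynomial.coeff_map, hqc]
    have h1 : IsIntegral ℤ (⟨p.coeff i, hmem i⟩ : K) := by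
      rw [← isIntegral_algebraMap_iff (algebraMap K ℂ).injective]
      exact hint i
    exact h1.map (σ : K →+* ℂ).toIntAlgHom
  set F : ℂ[X] := ∏ σ : K →ₐ[ℚ] ℂ, g σ with hF
  have hcard : (Finset.univ : Finset (K →ₐ[ℚ] ℂ)).card = d := by
    rw [Finset.card_univ, hd]
    exact AlgHom.card ℚ K ℂ
  have hFval : ∀ m : ℕ, F.eval (m : ℂ) = ((Algebra.norm ℚ (q.eval (m : K)) : ℚ) : ℂ) := by
    intro m
    have h1 := Algebra.norm_eq_prod_embeddings ℚ ℂ (q.eval (m : K))
    rw [eq_ratCast] at h1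
    rw [h1, hF, Polynomial.eval_prod]
    refine Finset.prod_congr rfl fun σ _ => ?_
    simp only [g]
    rw [Polynomial.eval_natCast_map]
    rfl
  obtain ⟨G, hG⟩ := nm_rat_of_values F _ hFval
  have hFint : ∀ i, IsIntegral ℤ (F.coeff i) := fun i =>
    nm_integral_prod _ g (fun σ _ => hgint σ) i
  obtain ⟨P, hP⟩ := nm_int_of_rat F G hG hFint
  have hF0 : F ≠ 0 := Finset.prod_ne_zero_iff.2 fun σ _ => hg0 σ
  let σ₀ : K →ₐ[ℚ] ℂ := K.val
  have hσ₀ : g σ₀ = p := by
    simp only [g]
    rw [← hq]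
    rfl
  have hinjZ : Function.Injective (Int.castRingHom ℂ) := Int.cast_injective
  refine ⟨P, ∏ σ ∈ Finset.univ.erase σ₀, g σ, ?_, ?_, ?_, ?_, ?_, ?_⟩
  · rintro rfl
    apply hF0
    rw [← hP, Polynomial.map_zero]
  · rw [hP, hF, ← hσ₀]
    exact (Finset.mul_prod_erase _ _ (Finset.mem_univ _)).symm
  · rw [← Polynomial.natDegree_map_eq_of_injective hinjZ P, hP, hF]
    refine (Polynomial.natDegree_prod_le _ _).trans ?_
    refine (Finset.sum_le_card_nsmul _ _ T fun σ _ => hgdeg σ).trans ?_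
    rw [hcard, smul_eq_mul]
  · refine (Polynomial.natDegree_prod_le _ _).trans ?_
    refine (Finset.sum_le_card_nsmul _ _ T fun σ _ => hgdeg σ).trans ?_
    rw [Finset.card_erase_of_mem (Finset.mem_univ _), hcard, smul_eq_mul]
  · refine (len_prod_le _ _).trans ?_
    refine (Finset.prod_le_prod (fun σ _ => len_nonneg _) fun σ _ => hglen σ).trans ?_
    rw [Finset.prod_const, Finset.card_erase_of_mem (Finset.mem_univ _), hcard]
  · rw [hP, hF]
    refine (len_prod_le _ _).trans ?_
    refine (Finset.prod_le_prod (fun σ _ => len_nonneg _) fun σ _ => hglen σ).trans ?_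
    rw [Finset.prod_const, hcard]

end Pool.Agent.LGO.Det
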