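import Mathlib
import Pool.Agent.LGO.B.DetLen

/-!
# LGO, part (4c): roots of high multiplicity of an integral polynomial

Statements to prove: `exists_pow_dvd`, `exists_split`, `height_of_pow_dvd`.

PROOF of `exists_pow_dvd`.  `r` is algebraic over `ℚ` (root of `P`).  Let `m = minpoly ℚ r`
(irreducible, separable: `(minpoly.irreducible _).separable`).  Claim: for all `k` and all nonzero
`F : ℚ[X]`, if `k ≤ (F.map (algebraMap ℚ ℂ)).rootMultiplicity r` then `m ^ k ∣ F`.  Induction on
`k`: for `k + 1` the number `r` is a root of `F`, so `F = m * F₁` (`minpoly.dvd`); the multiplicity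
of `r` in `m.map` is one (separable: `Polynomial.rootMultiplicity_le_one_of_separable`), and
`rootMultiplicity_mul`, so the multiplicity of `r` in `F₁` is at least `k`.  So
`m ^ (J + 1) ∣ P.map (Int.castRingHom ℚ)`.  Let `q : ℤ[X]` be primitive with
`q.map (Int.castRingHom ℚ) = C c * m`, `c ≠ 0` (`IsLocalization.integerNormalization` and
`primPart`, or `Polynomial.IsPrimitive` part).  Then `q ^ (J + 1)` is primitive
(`IsPrimitive.mul`), its image divides the image of `P`, so `q ^ (J + 1) ∣ P` by the Gauss lemma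
`Polynomial.IsPrimitive.Int.dvd_iff_map_cast_dvd_map_cast` (if that lemma wants both polynomials
primitive, split off the content of `P`), and `natDegree q = natDegree m > 0`.

PROOF of `exists_split`.  Strong induction on `P.natDegree`.  If all complex roots of `P` have
multiplicity `≤ J`: `A = 1`, `B = P`.  Otherwise take `r`, `q` by `exists_pow_dvd`; `P = q * P'`
with `P' ≠ 0`, `P'.natDegree < P.natDegree`, `P' = A' * B'` by induction; take `A = q * A'`,
`B = B'`.  A root of `A` is a root of `q` (and `q ^ (J + 1) ∣ P`) or of `A'`, and then it has a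
`q'` with `q' ^ (J + 1) ∣ P' ∣ P`.

PROOF of `height_of_pow_dvd`.  `P = q ^ (J + 1) * S`, all nonzero.  Degrees: `natDegree_mul`,
`natDegree_pow`.  Mahler measures (`Polynomial.mahlerMeasure_mul`, images in `ℂ[X]`):
`M(q) ^ (J + 1) * M(S) = M(P) ≤ len P ≤ exp H`, `M(S) ≥ 1`
(`Polynomial.one_le_mahlerMeasure_of_ne_zero` in `Mathlib.NumberTheory.MahlerMeasure`), so
`M(q) ≤ exp (H / (J + 1))`; and `|coefficient| ≤ choose * M(q) ≤ 2 ^ natDegree q * M(q)`
(`Polynomial.norm_coeff_le_choose_mul_mahlerMeasure`; or `len_le_mahler`).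
-/

namespace Pool.Agent.LGO.Det

open Polynomial

private theorem NmSplit_pow (r : ℂ) (m : ℚ[X]) (hm : m.Separable)
    (hmin : ∀ F : ℚ[X], aeval r F = 0 → m ∣ F) (k : ℕ) : ∀ F : ℚ[X], F ≠ 0 →
      k ≤ (F.map (algebraMap ℚ ℂ)).rootMultiplicity r → m ^ k ∣ F := by
  induction k with
  | zero => intro F _ _; simp
  | succ k ih =>
    intro F hF hk
    have hF' : F.map (algebraMap ℚ ℂ) ≠ 0 :=
      (Polynomial.map_ne_zero_iff (algebraMap ℚ ℂ).injective).2 hF
    have h1 : (F.map (algebraMap ℚ ℂ)).IsRoot r := (rootMultiplicity_pos hF').1 (by omega)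
    have h2 : aeval r F = 0 := by rwa [IsRoot.def, eval_map_algebraMap] at h1
    obtain ⟨G, rfl⟩ := hmin F h2
    rw [Polynomial.map_mul] at hk hF'
    rw [rootMultiplicity_mul hF'] at hk
    have h3 := rootMultiplicity_le_one_of_separable (hm.map (f := algebraMap ℚ ℂ)) r
    rw [pow_succ']
    exact mul_dvd_mul_left m (ih G (right_ne_zero_of_mul hF) (by omega))

private theorem NmSplit_map (P : ℤ[X]) :
    (P.map (Int.castRingHom ℚ)).map (algebraMap ℚ ℂ) = P.map (Int.castRingHom ℂ) := by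
  rw [Polynomial.map_map]
  congr 1

private theorem NmSplit_aeval (P : ℤ[X]) (r : ℂ) :
    aeval r (P.map (Int.castRingHom ℚ)) = aeval r P := by
  have h : aeval r (P.map (Int.castRingHom ℚ)) =
      eval r ((P.map (Int.castRingHom ℚ)).map (algebraMap ℚ ℂ)) := by
    rw [eval_map_algebraMap]
  rw [h, NmSplit_map, eval_map, aeval_def]
  congr 1

/-- a primitive integral polynomial proportional to a given rational one -/
private theorem NmSplit_prim (m : ℚ[X]) (hm : m ≠ 0) : ∃ (q : ℤ[X]) (c : ℚ), c ≠ 0 ∧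
    q.IsPrimitive ∧ q.map (Int.castRingHom ℚ) = C c * m := by
  set Q := IsLocalization.integerNormalization (nonZeroDivisors ℤ) m with hQ
  obtain ⟨b, hb, hb2⟩ := IsLocalization.integerNormalization_spec (nonZeroDivisors ℤ) m
  have hb0 : b ≠ 0 := nonZeroDivisors.ne_zero hb
  have hQm : Q.map (Int.castRingHom ℚ) = C (b : ℚ) * m := by
    have h1 : Q.map (algebraMap ℤ ℚ) = b • m := hb2
    have h2 : b • m = C (b : ℚ) * m := by
      rw [Algebra.smul_def, Polynomial.algebraMap_apply]
      simp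
    rw [← h2, ← h1]
    rfl
  have hQ0 : Q ≠ 0 := by
    intro h
    rw [h, Polynomial.map_zero] at hQm
    exact mul_ne_zero (C_ne_zero.2 (by exact_mod_cast hb0)) hm hQm.symm
  have hc0 : Q.content ≠ 0 := fun h => hQ0 (content_eq_zero_iff.1 h)
  refine ⟨Q.primPart, (b : ℚ) / (Q.content : ℚ), ?_, Q.isPrimitive_primPart, ?_⟩
  · exact div_ne_zero (by exact_mod_cast hb0) (by exact_mod_cast hc0)
  · have h1 := congrArg (Polynomial.map (Int.castRingHom ℚ)) Q.eq_C_content_mul_primPart
    rw [hQm, Polynomial.map_mul, map_C] at h1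
    have h2 : (C ((Q.content : ℤ) : ℚ) : ℚ[X]) ≠ 0 := C_ne_zero.2 (by exact_mod_cast hc0)
    apply mul_left_cancel₀ h2
    have h3 : (C ((Q.content : ℤ) : ℚ) : ℚ[X]) * (C ((b : ℚ) / (Q.content : ℚ)) * m) =
        C (b : ℚ) * m := by
      rw [← mul_assoc, ← C_mul, mul_div_cancel₀]
      exact_mod_cast hc0
    rw [h3, h1]
    rfl

/-- a root of multiplicity more than `J` is the root of an integral polynomial `q` of positive
degree with `q ^ (J + 1) ∣ P` -/
theorem exists_pow_dvd (P : ℤ[X]) (hP : P ≠ 0) (J : ℕ) (r : ℂ)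
    (h : J < (P.map (Int.castRingHom ℂ)).rootMultiplicity r) :
    ∃ q : ℤ[X], 0 < q.natDegree ∧ aeval r q = 0 ∧ q ^ (J + 1) ∣ P := by
  have hinj : Function.Injective (Int.castRingHom ℚ) := Int.cast_injective
  have hinjC : Function.Injective (Int.castRingHom ℂ) := Int.cast_injective
  have hPQ : P.map (Int.castRingHom ℚ) ≠ 0 := (Polynomial.map_ne_zero_iff hinj).2 hP
  have hPC : P.map (Int.castRingHom ℂ) ≠ 0 := (Polynomial.map_ne_zero_iff hinjC).2 hP
  have hroot : aeval r (P.map (Int.castRingHom ℚ)) = 0 := by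
    have h1 : (P.map (Int.castRingHom ℂ)).IsRoot r := (rootMultiplicity_pos hPC).1 (by omega)
    rw [← NmSplit_map, IsRoot.def, eval_map_algebraMap] at h1
    exact h1
  have hint : IsIntegral ℚ r := (isAlgebraic_iff_isIntegral).1 ⟨_, hPQ, hroot⟩
  set m := minpoly ℚ r with hm
  have hirr : Irreducible m := minpoly.irreducible hint
  have hdvd : m ^ (J + 1) ∣ P.map (Int.castRingHom ℚ) := by
    refine NmSplit_pow r m hirr.separable (fun F hF => minpoly.dvd ℚ r hF) (J + 1) _ hPQ ?_
    rw [NmSplit_map]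
    omega
  obtain ⟨q, c, hc, hq, hqm⟩ := NmSplit_prim m hirr.ne_zero
  refine ⟨q, ?_, ?_, ?_⟩
  · have h1 : q.natDegree = m.natDegree := by
      rw [← natDegree_map_eq_of_injective hinj q, hqm, natDegree_C_mul hc]
    rw [h1]
    exact hirr.natDegree_pos
  · rw [← NmSplit_aeval, hqm, map_mul, minpoly.aeval, mul_zero]
  · have hqp : (q ^ (J + 1)).IsPrimitive := by
      induction J + 1 with
      | zero => rw [pow_zero]; exact isPrimitive_one
      | succ n ih => rw [pow_succ]; exact ih.mul hq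
    rw [IsPrimitive.Int.dvd_iff_map_cast_dvd_map_cast _ _ hqp, Polynomial.map_pow, hqm, mul_pow]
    have hu : IsUnit ((C c : ℚ[X]) ^ (J + 1)) := (isUnit_C.2 (isUnit_iff_ne_zero.2 hc)).pow _
    exact (hu.mul_left_dvd).2 hdvd

private theorem NmSplit_split (J n : ℕ) : ∀ P : ℤ[X], P ≠ 0 → P.natDegree ≤ n →
    ∃ A B : ℤ[X], P = A * B ∧
      (∀ r : ℂ, (B.map (Int.castRingHom ℂ)).rootMultiplicity r ≤ J) ∧
      ∀ r : ℂ, aeval r A = 0 →
        ∃ q : ℤ[X], 0 < q.natDegree ∧ aeval r q = 0 ∧ q ^ (J + 1) ∣ P := by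
  induction n with
  | zero =>
    intro P hP hn
    by_cases hr : ∃ r : ℂ, J < (P.map (Int.castRingHom ℂ)).rootMultiplicity r
    · obtain ⟨r, hr⟩ := hr
      obtain ⟨q, hq, _, hqd⟩ := exists_pow_dvd P hP J r hr
      have h1 := natDegree_le_of_dvd ((dvd_pow_self q (Nat.succ_ne_zero J)).trans hqd) hP
      omega
    · push Not at hr
      refine ⟨1, P, (one_mul P).symm, hr, fun r h => ?_⟩
      rw [map_one] at h
      exact absurd h one_ne_zero
  | succ n ih =>
    intro P hP hn
    by_cases hr : ∃ r : ℂ, J < (P.map (Int.castRingHom ℂ)).rootMultiplicity r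
    · obtain ⟨r, hr⟩ := hr
      obtain ⟨q, hq, _, hqd⟩ := exists_pow_dvd P hP J r hr
      obtain ⟨P', hP'⟩ := (dvd_pow_self q (Nat.succ_ne_zero J)).trans hqd
      have hq0 : q ≠ 0 := by
        intro h
        rw [h, zero_mul] at hP'
        exact hP hP'
      have hP0 : P' ≠ 0 := by
        intro h
        rw [h, mul_zero] at hP'
        exact hP hP'
      have hdeg : P'.natDegree ≤ n := by
        rw [hP', natDegree_mul hq0 hP0] at hn
        omega
      obtain ⟨A, B, hAB, hB, hA⟩ := ih P' hP0 hdeg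
      refine ⟨q * A, B, ?_, hB, ?_⟩
      · rw [hP', hAB, mul_assoc]
      · intro s hs
        rw [map_mul, mul_eq_zero] at hs
        rcases hs with hs | hs
        · exact ⟨q, hq, hs, hqd⟩
        · obtain ⟨q', h1, h2, h3⟩ := hA s hs
          exact ⟨q', h1, h2, h3.trans ⟨q, by rw [hP', mul_comm]⟩⟩
    · push Not at hr
      refine ⟨1, P, (one_mul P).symm, hr, fun r h => ?_⟩
      rw [map_one] at h
      exact absurd h one_ne_zero

/-- splitting off the roots of high multiplicity -/
theorem exists_split (P : ℤ[X]) (hP : P ≠ 0) (J : ℕ) :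
    ∃ A B : ℤ[X], P = A * B ∧
      (∀ r : ℂ, (B.map (Int.castRingHom ℂ)).rootMultiplicity r ≤ J) ∧
      ∀ r : ℂ, aeval r A = 0 →
        ∃ q : ℤ[X], 0 < q.natDegree ∧ aeval r q = 0 ∧ q ^ (J + 1) ∣ P :=
  NmSplit_split J P.natDegree P hP le_rfl

/-- degree and height of a polynomial whose power divides `P` -/
theorem height_of_pow_dvd (P q : ℤ[X]) (hP : P ≠ 0) (J n : ℕ) (H : ℝ) (hq : q ^ (J + 1) ∣ P)
    (hn : P.natDegree ≤ n) (hH : len (P.map (Int.castRingHom ℂ)) ≤ Real.exp H) :
    q.natDegree * (J + 1) ≤ n ∧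
      ∀ i, |(q.coeff i : ℝ)| ≤ 2 ^ q.natDegree * Real.exp (H / (J + 1)) := by
  obtain ⟨S, hS⟩ := hq
  have hq0 : q ^ (J + 1) ≠ 0 := by
    intro h
    rw [h, zero_mul] at hS
    exact hP hS
  have hS0 : S ≠ 0 := by
    intro h
    rw [h, mul_zero] at hS
    exact hP hS
  constructor
  · have h1 := hn
    rw [hS, natDegree_mul hq0 hS0, natDegree_pow, mul_comm] at h1
    omega
  · have hinjC : Function.Injective (Int.castRingHom ℂ) := Int.cast_injective
    have h1 : (P.map (Int.castRingHom ℂ)).mahlerMeasure =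
        (q.map (Int.castRingHom ℂ)).mahlerMeasure ^ (J + 1) *
          (S.map (Int.castRingHom ℂ)).mahlerMeasure := by
      rw [hS, Polynomial.map_mul, mahlerMeasure_mul, Polynomial.map_pow]
      congr 1
      generalize q.map (Int.castRingHom ℂ) = Q
      induction J + 1 with
      | zero => simp
      | succ n ih => rw [pow_succ, mahlerMeasure_mul, ih, pow_succ]
    have h2 : (1 : ℝ) ≤ (S.map (Int.castRingHom ℂ)).mahlerMeasure :=
      one_le_mahlerMeasure_of_ne_zero hS0
    have h3 : (q.map (Int.castRingHom ℂ)).mahlerMeasure ^ (J + 1) ≤ Real.exp H := by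
      have h4 : (0 : ℝ) ≤ (q.map (Int.castRingHom ℂ)).mahlerMeasure ^ (J + 1) :=
        pow_nonneg (mahlerMeasure_nonneg _) _
      calc (q.map (Int.castRingHom ℂ)).mahlerMeasure ^ (J + 1)
          ≤ (q.map (Int.castRingHom ℂ)).mahlerMeasure ^ (J + 1) *
            (S.map (Int.castRingHom ℂ)).mahlerMeasure := le_mul_of_one_le_right h4 h2
        _ = (P.map (Int.castRingHom ℂ)).mahlerMeasure := h1.symm
        _ ≤ len (P.map (Int.castRingHom ℂ)) := mahler_le_len _
        _ ≤ Real.exp H := hH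
    have h5 : (q.map (Int.castRingHom ℂ)).mahlerMeasure ≤ Real.exp (H / (J + 1)) := by
      apply le_of_pow_le_pow_left₀ (Nat.succ_ne_zero J) (Real.exp_pos _).le
      refine h3.trans (le_of_eq ?_)
      rw [← Real.exp_nat_mul]
      congr 1
      have h6 : ((J : ℝ) + 1) ≠ 0 := by positivity
      push_cast
      field_simp
    intro i
    have h7 : |(q.coeff i : ℝ)| = ‖(q.map (Int.castRingHom ℂ)).coeff i‖ := by
      rw [coeff_map]
      simp
    rw [h7]
    calc ‖(q.map (Int.castRingHom ℂ)).coeff i‖ ≤ len (q.map (Int.castRingHom ℂ)) :=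
          norm_coeff_le_len _ _
      _ ≤ 2 ^ q.natDegree * (q.map (Int.castRingHom ℂ)).mahlerMeasure :=
          len_le_mahler _ _ natDegree_map_le
      _ ≤ 2 ^ q.natDegree * Real.exp (H / (J + 1)) := by gcongr

end Pool.Agent.LGO.Det
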