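import Mathlib
import Pool.Agent.LGO.B.DetLemma
import Pool.Agent.LGO.B.NmPoly
import Pool.Agent.LGO.B.NmSplit
import Pool.Agent.LGO.B.NmDiv

/-!
# LGO, part (4c): main estimate

`d = finrank`, `n = d T`, `J = T / 8 ≥ T / 16`.
`P` = norm of `p` (`exists_norm`, `B = exp (T h)`): `len P ≤ ((T + 1) exp (T h))^d ≤ exp (2 d T h)`,
Taylor coefficients of order `≤ T / 4` at most `exp (- T Y + 4 d T h)`.  `P = A * B`
(`exists_split`); the roots `ξ` of `A` are roots of `q` with `natDegree q ≤ 8 d`, coefficients at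
most `2^(8 d) exp (2 d T h / (J + 1)) ≤ exp (24 d h)` (`height_of_pow_dvd`), so
`‖t - ξ‖ ≥ exp (- M₁)`; `small_div` with `ρ = exp (- M₁) / 2`: Taylor coefficients of `B` of order
`< 2 J` at most `exp (- T Y + d T (2 M₁ + 7 h))`; `len B ≤ 2^n M(B) ≤ exp (3 d T h)`; `det_lemma`.
-/

namespace Pool.Agent.LGO.Det

open Polynomial

lemma norm_coeff_mul_le (A B : ℂ[X]) (j : ℕ) (ε : ℝ) (hA : ∀ i ≤ j, ‖A.coeff i‖ ≤ ε) :
    ‖(A * B).coeff j‖ ≤ ε * len B := by
  have hε : 0 ≤ ε := (norm_nonneg _).trans (hA 0 (Nat.zero_le _))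
  rw [coeff_mul]
  refine (norm_sum_le _ _).trans ?_
  calc ∑ x ∈ Finset.HasAntidiagonal.antidiagonal j, ‖A.coeff x.1 * B.coeff x.2‖
      ≤ ∑ x ∈ Finset.HasAntidiagonal.antidiagonal j, ε * ‖B.coeff x.2‖ := by
        apply Finset.sum_le_sum
        intro x hx
        rw [norm_mul]
        have h1 : x.1 ≤ j := by
          have := Finset.HasAntidiagonal.mem_antidiagonal.1 hx
          omega
        exact mul_le_mul_of_nonneg_right (hA _ h1) (norm_nonneg _)
    _ = ε * ∑ x ∈ Finset.HasAntidiagonal.antidiagonal j, ‖B.coeff x.2‖ := by rw [Finset.mul_sum]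
    _ = ε * ∑ k ∈ Finset.range (j + 1), ‖B.coeff k‖ := by
        rw [← Finset.Nat.sum_antidiagonal_swap]
        rw [Finset.Nat.sum_antidiagonal_eq_sum_range_succ_mk]
        rfl
    _ ≤ ε * len B := by
        gcongr
        exact sum_norm_coeff_le_len _ _

/-- **main estimate of part (4c)**: a polynomial with integral coefficients in a number field
cannot have many very small Taylor coefficients at a point which is not well approximable by
algebraic numbers -/
theorem det_main (K : IntermediateField ℚ ℂ) [FiniteDimensional ℚ K] (p : ℂ[X]) (t : ℂ) (T : ℕ)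
    (h M₁ Y : ℝ) (hT : 16 ≤ T) (hp : p ≠ 0) (hdeg : p.natDegree ≤ T)
    (hmem : ∀ i, p.coeff i ∈ K) (hint : ∀ i, IsIntegral ℤ (p.coeff i))
    (hhouse : ∀ (i : ℕ) (σ : K →+* ℂ), ‖σ ⟨p.coeff i, hmem i⟩‖ ≤ Real.exp (T * h))
    (h1 : 1 ≤ h) (hlogT : Real.log T ≤ h) (ht : ‖t‖ ≤ Real.exp h) (hM₁ : 0 ≤ M₁)
    (hmeas : ∀ (q : ℤ[X]) (ξ : ℂ), q ≠ 0 → q.natDegree ≤ 8 * Module.finrank ℚ K →
      (∀ i, |(q.coeff i : ℝ)| ≤ Real.exp (24 * Module.finrank ℚ K * h)) → aeval ξ q = 0 →
      Real.exp (-M₁) ≤ ‖t - ξ‖)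
    (hsmall : ∀ j : ℕ, 4 * j ≤ T → ‖(taylor t p).coeff j‖ ≤ Real.exp (-(T * Y))) :
    Y ≤ 512 * (Module.finrank ℚ K) ^ 2 * (M₁ + h) := by
  set d : ℕ := Module.finrank ℚ K with hd
  have hd1 : 1 ≤ d := Module.finrank_pos
  have hdR : (1 : ℝ) ≤ d := by exact_mod_cast hd1
  have hTR : (16 : ℝ) ≤ T := by exact_mod_cast hT
  have hT0 : (0 : ℝ) < T := by linarith
  have e1 : (2 : ℝ) ≤ Real.exp 1 := by linarith [Real.add_one_le_exp (1 : ℝ)]
  have eh : (2 : ℝ) ≤ Real.exp h := e1.trans (Real.exp_le_exp.2 h1)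
  have hTexp : (T : ℝ) ≤ Real.exp h := by
    rw [← Real.exp_log hT0]; exact Real.exp_le_exp.2 hlogT
  obtain ⟨P, R, hP0, hPR, hPdeg, hRdeg, hRlen, hPlen⟩ :=
    exists_norm K p hp hmem hint T hdeg (Real.exp (T * h)) hhouse
  set ι := Int.castRingHom ℂ with hι
  have hinj : Function.Injective ι := Int.cast_injective
  set X : ℝ := d * T * h with hX
  have hXd : (d : ℝ) * T ≤ X := by
    rw [hX]; exact le_mul_of_one_le_right (by positivity) h1
  have hX16 : 16 ≤ X := by
    refine le_trans ?_ hXd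
    nlinarith
  -- lengths
  have hB1 : ((T : ℝ) + 1) * Real.exp (T * h) ≤ Real.exp (2 * T * h) := by
    have h2 : (T : ℝ) + 1 ≤ Real.exp (2 * h) := by
      have h3 : Real.exp (2 * h) = Real.exp h * Real.exp h := by rw [← Real.exp_add]; ring_nf
      rw [h3]; nlinarith
    calc ((T : ℝ) + 1) * Real.exp (T * h) ≤ Real.exp (2 * h) * Real.exp (T * h) := by gcongr
      _ = Real.exp (2 * h + T * h) := by rw [Real.exp_add]
      _ ≤ Real.exp (2 * T * h) := by
        apply Real.exp_le_exp.2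
        nlinarith
  have ht2 : 1 + ‖t‖ ≤ Real.exp (2 * h) := by
    have h3 : Real.exp (2 * h) = Real.exp h * Real.exp h := by rw [← Real.exp_add]; ring_nf
    rw [h3]; nlinarith
  have hPlen' : len (P.map ι) ≤ Real.exp (2 * X) := by
    calc len (P.map ι) ≤ ((T + 1) * Real.exp (T * h)) ^ d := hPlen
      _ ≤ Real.exp (2 * T * h) ^ d := by gcongr
      _ = Real.exp (2 * X) := by
        rw [← Real.exp_nat_mul, hX]; congr 1; ring
  -- small Taylor coefficients of the norm
  have hPsmall : ∀ j : ℕ, 4 * j ≤ T →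
      ‖(taylor t (P.map ι)).coeff j‖ ≤ Real.exp (-(T * Y) + 4 * X) := by
    intro j hj
    rw [hPR, taylor_mul]
    refine (norm_coeff_mul_le _ _ j (Real.exp (-(T * Y)))
      (fun i hi => hsmall i (by omega))).trans ?_
    have h3 : len (taylor t R) ≤ Real.exp (4 * X) := by
      calc len (taylor t R) ≤ (1 + ‖t‖) ^ ((d - 1) * T) * len R := len_taylor_le R t _ hRdeg
        _ ≤ Real.exp (2 * h) ^ ((d - 1) * T) * Real.exp (2 * T * h) ^ (d - 1) := by
            gcongr
            · exact len_nonneg _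
            · refine hRlen.trans ?_
              gcongr
        _ = Real.exp (4 * (((d - 1 : ℕ) : ℝ) * T * h)) := by
            rw [← Real.exp_nat_mul, ← Real.exp_nat_mul, ← Real.exp_add]
            congr 1; push_cast; ring
        _ ≤ Real.exp (4 * X) := by
            apply Real.exp_le_exp.2
            rw [hX]
            have h4 : ((d - 1 : ℕ) : ℝ) ≤ d := by exact_mod_cast Nat.sub_le _ _
            gcongr
    calc Real.exp (-(T * Y)) * len (taylor t R) ≤ Real.exp (-(T * Y)) * Real.exp (4 * X) := by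
          gcongr
      _ = _ := by rw [← Real.exp_add]
  -- the splitting
  set J : ℕ := T / 8 with hJ
  have hJ1 : 1 ≤ J := by omega
  have hJT : T < 8 * (J + 1) := by omega
  have hJ8 : 8 * J ≤ T := by omega
  have hJ16 : T ≤ 16 * J := by omega
  obtain ⟨A, B, hAB, hBmult, hAroot⟩ := exists_split P hP0 J
  have hA0 : A ≠ 0 := by rintro rfl; exact hP0 (by rw [hAB, zero_mul])
  have hB0 : B ≠ 0 := by rintro rfl; exact hP0 (by rw [hAB, mul_zero])
  have hlead : ∀ F : ℤ[X], F ≠ 0 → 1 ≤ ‖(F.map ι).leadingCoeff‖ := by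
    intro F hF
    rw [leadingCoeff_map_of_injective hinj, hι, eq_intCast, Complex.norm_intCast]
    exact_mod_cast Int.one_le_abs (leadingCoeff_ne_zero.2 hF)
  have hdegAB : A.natDegree + B.natDegree ≤ d * T := by
    rw [← natDegree_mul hA0 hB0, ← hAB]; exact hPdeg
  have hAr : ∀ r, (A.map ι).IsRoot r → 2 * (Real.exp (-M₁) / 2) ≤ ‖t - r‖ := by
    intro r hr
    have hr' : aeval r A = 0 := by
      rw [IsRoot.def, eval_map] at hr
      rw [aeval_def]
      exact hr
    obtain ⟨q, hq0, hqr, hqP⟩ := hAroot r hr'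
    obtain ⟨hq1, hq2⟩ := height_of_pow_dvd P q hP0 J (d * T) (2 * X) hqP hPdeg hPlen'
    have hq3 : q.natDegree ≤ 8 * d := by
      have h5 : q.natDegree * (J + 1) ≤ (8 * d) * (J + 1) := by
        calc q.natDegree * (J + 1) ≤ d * T := hq1
          _ ≤ d * (8 * (J + 1)) := by gcongr
          _ = _ := by ring
      exact Nat.le_of_mul_le_mul_right h5 (by omega)
    have hq4 : ∀ i, |(q.coeff i : ℝ)| ≤ Real.exp (24 * d * h) := by
      intro i
      refine (hq2 i).trans ?_
      have h6 : (2 : ℝ) ^ q.natDegree ≤ Real.exp (8 * d * h) := by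
        calc (2 : ℝ) ^ q.natDegree ≤ 2 ^ (8 * d) := pow_le_pow_right₀ (by norm_num) hq3
          _ ≤ Real.exp 1 ^ (8 * d) := by gcongr
          _ = Real.exp (8 * d) := by rw [← Real.exp_nat_mul]; congr 1; push_cast; ring
          _ ≤ Real.exp (8 * d * h) := by
            apply Real.exp_le_exp.2
            exact le_mul_of_one_le_right (by positivity) h1
      have h7 : Real.exp (2 * X / (J + 1)) ≤ Real.exp (16 * d * h) := by
        apply Real.exp_le_exp.2
        rw [div_le_iff₀ (by positivity), hX]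
        have h8 : (T : ℝ) ≤ 8 * (J + 1) := by exact_mod_cast hJT.le
        calc 2 * (d * T * h) ≤ 2 * (d * (8 * (J + 1)) * h) := by gcongr
          _ = _ := by ring
      calc (2 : ℝ) ^ q.natDegree * Real.exp (2 * X / (J + 1))
          ≤ Real.exp (8 * d * h) * Real.exp (16 * d * h) := by gcongr
        _ = Real.exp (24 * d * h) := by rw [← Real.exp_add]; congr 1; ring
    have hq5 : q ≠ 0 := by rintro rfl; simp at hq0
    have h9 := hmeas q r hq5 hq3 hq4 hqr
    linarith
  have hρ : 0 < Real.exp (-M₁) / 2 := by positivity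
  have hρ2 : Real.exp (-M₁) / 2 ≤ 1 / 2 := by
    have : Real.exp (-M₁) ≤ 1 := Real.exp_le_one_iff.2 (by linarith)
    linarith
  have hmapAB : P.map ι = A.map ι * B.map ι := by rw [hAB, Polynomial.map_mul]
  have hBsmall := small_div (A.map ι) (B.map ι) t (Real.exp (-M₁) / 2)
    (Real.exp (-(T * Y) + 4 * X)) (d * T) (2 * J) hρ hρ2 (hlead A hA0)
    ((natDegree_map_le).trans (by omega)) hAr (by
      intro j hj
      rw [← hmapAB]
      exact hPsmall j (by omega))
  set E : ℝ := Real.exp (-(T * Y) + d * T * (7 * h + 2 * M₁)) with hE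
  have hE' : 2 * Real.exp (-(T * Y) + 4 * X) * (Real.exp (-M₁) / 2)⁻¹ ^ (d * T + 2 * J) ≤ E := by
    have h10 : (Real.exp (-M₁) / 2)⁻¹ ≤ Real.exp (1 + M₁) := by
      rw [inv_div, Real.exp_neg, div_inv_eq_mul, Real.exp_add]
      gcongr
    have h11 : (Real.exp (-M₁) / 2)⁻¹ ^ (d * T + 2 * J) ≤ Real.exp (2 * (d * T) * (1 + M₁)) := by
      calc (Real.exp (-M₁) / 2)⁻¹ ^ (d * T + 2 * J)
          ≤ Real.exp (1 + M₁) ^ (d * T + 2 * J) := by gcongr
        _ ≤ Real.exp (1 + M₁) ^ (2 * (d * T)) := by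
            apply pow_le_pow_right₀ (Real.one_le_exp (by linarith))
            have h12 : 2 * J ≤ T := by omega
            have h13 : T ≤ d * T := Nat.le_mul_of_pos_left _ hd1
            omega
        _ = _ := by rw [← Real.exp_nat_mul]; congr 1; push_cast; ring
    have h14 : (2 : ℝ) ≤ Real.exp X := e1.trans (Real.exp_le_exp.2 (by linarith))
    calc 2 * Real.exp (-(T * Y) + 4 * X) * (Real.exp (-M₁) / 2)⁻¹ ^ (d * T + 2 * J)
        ≤ Real.exp X * Real.exp (-(T * Y) + 4 * X) * Real.exp (2 * (d * T) * (1 + M₁)) := by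
          gcongr
      _ = Real.exp (X + (-(T * Y) + 4 * X) + 2 * (d * T) * (1 + M₁)) := by
          rw [← Real.exp_add, ← Real.exp_add]
      _ ≤ E := by
          rw [hE]
          apply Real.exp_le_exp.2
          rw [hX] at hXd ⊢
          nlinarith
  -- length of `B`
  have h2exp : (2 : ℝ) ^ (d * T) ≤ Real.exp X := by
    calc (2 : ℝ) ^ (d * T) ≤ Real.exp 1 ^ (d * T) := by gcongr
      _ = Real.exp (d * T) := by rw [← Real.exp_nat_mul]; congr 1; push_cast; ring
      _ ≤ Real.exp X := Real.exp_le_exp.2 hXd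
  have hBlen : len (B.map ι) ≤ Real.exp (3 * X) := by
    have h15 : (B.map ι).mahlerMeasure ≤ Real.exp (2 * X) := by
      have h16 : (P.map ι).mahlerMeasure ≤ Real.exp (2 * X) := (mahler_le_len _).trans hPlen'
      rw [hmapAB, mahlerMeasure_mul] at h16
      have h17 : 1 ≤ (A.map ι).mahlerMeasure := (hlead A hA0).trans (leadingCoeff_le_mahlerMeasure _)
      have h18 : 0 ≤ (B.map ι).mahlerMeasure := mahlerMeasure_nonneg _
      nlinarith
    calc len (B.map ι) ≤ 2 ^ (d * T) * (B.map ι).mahlerMeasure :=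
          len_le_mahler _ _ ((natDegree_map_le).trans (by omega))
      _ ≤ Real.exp X * Real.exp (2 * X) := by
          gcongr
          exact mahlerMeasure_nonneg _
      _ = Real.exp (3 * X) := by rw [← Real.exp_add]; congr 1; ring
  -- determinant lemma
  have hdet := det_lemma B hB0 (d * T) J (by omega) hJ1 hBmult t E
    (fun j hj => (hBsmall j hj).trans hE')
  have hdexp : (d : ℝ) ≤ Real.exp d := by linarith [Real.add_one_le_exp (d : ℝ)]
  have hJR : (J : ℝ) ≤ T / 8 := by
    have : (8 : ℝ) * J ≤ T := by exact_mod_cast hJ8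
    linarith
  have hJ0 : (0 : ℝ) ≤ J := Nat.cast_nonneg _
  have hbase : (2 * ((d * T : ℕ) : ℝ) * (J + 1) * (((d * T : ℕ) : ℝ) * J + 1) ^ J * 4 ^ (d * T) *
      (1 + ‖t‖) ^ (d * T) * len (B.map ι)) ≤ Real.exp (9 * X) := by
    have b1 : 2 * ((d * T : ℕ) : ℝ) ≤ Real.exp (1 + d + h) := by
      rw [Real.exp_add, Real.exp_add]
      push_cast
      calc 2 * ((d : ℝ) * T) = 2 * d * T := by ring
        _ ≤ Real.exp 1 * Real.exp d * Real.exp h := by gcongr
    have b2 : (J : ℝ) + 1 ≤ Real.exp h := by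
      refine le_trans ?_ hTexp
      linarith
    have b3 : (((d * T : ℕ) : ℝ) * J + 1) ≤ Real.exp (d + 2 * h) := by
      have h3 : Real.exp (d + 2 * h) = Real.exp d * (Real.exp h * Real.exp h) := by
        rw [Real.exp_add]; congr 1; rw [← Real.exp_add]; ring_nf
      rw [h3]
      push_cast
      have c4 : (256 : ℝ) ≤ T * T := by nlinarith
      have c5 : (T : ℝ) * T ≤ d * (T * T) := le_mul_of_one_le_left (by positivity) hdR
      have c6 : (d : ℝ) * T * J ≤ d * T * (T / 8) := by gcongr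
      calc (d : ℝ) * T * J + 1 ≤ d * (T * T) := by nlinarith
        _ ≤ Real.exp d * (Real.exp h * Real.exp h) := by gcongr
    have b4 : (4 : ℝ) ^ (d * T) ≤ Real.exp (2 * X) := by
      calc (4 : ℝ) ^ (d * T) = (2 ^ (d * T)) * (2 ^ (d * T)) := by
            rw [← mul_pow]; norm_num
        _ ≤ Real.exp X * Real.exp X := by gcongr
        _ = Real.exp (2 * X) := by rw [← Real.exp_add]; congr 1; ring
    have b5 : (1 + ‖t‖) ^ (d * T) ≤ Real.exp (2 * X) := by
      calc (1 + ‖t‖) ^ (d * T) ≤ Real.exp (2 * h) ^ (d * T) := by gcongr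
        _ = Real.exp (2 * X) := by
          rw [← Real.exp_nat_mul, hX]; congr 1; push_cast; ring
    have b3' : (((d * T : ℕ) : ℝ) * J + 1) ^ J ≤ Real.exp (J * (d + 2 * h)) := by
      calc (((d * T : ℕ) : ℝ) * J + 1) ^ J ≤ Real.exp (d + 2 * h) ^ J := by gcongr
        _ = _ := by rw [← Real.exp_nat_mul]
    calc (2 * ((d * T : ℕ) : ℝ) * (J + 1) * (((d * T : ℕ) : ℝ) * J + 1) ^ J * 4 ^ (d * T) *
          (1 + ‖t‖) ^ (d * T) * len (B.map ι))
        ≤ Real.exp (1 + d + h) * Real.exp h * Real.exp (J * (d + 2 * h)) * Real.exp (2 * X) *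
          Real.exp (2 * X) * Real.exp (3 * X) := by
          gcongr
          exact len_nonneg _
      _ = Real.exp (1 + d + h + h + J * (d + 2 * h) + 2 * X + 2 * X + 3 * X) := by
          simp only [Real.exp_add]
      _ ≤ Real.exp (9 * X) := by
          apply Real.exp_le_exp.2
          have c1 : 1 + (d : ℝ) + h + h ≤ X := by
            have c2 : (d : ℝ) * 16 * h ≤ X := by rw [hX]; gcongr
            nlinarith
          have c3 : (J : ℝ) * (d + 2 * h) ≤ X := by
            calc (J : ℝ) * (d + 2 * h) ≤ (T / 8) * (d * h + 2 * (d * h)) := by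
                  apply mul_le_mul hJR _ (by positivity) (by positivity)
                  nlinarith
              _ ≤ X := by rw [hX]; nlinarith [mul_pos hT0 (mul_pos (by linarith : (0:ℝ) < d)
                  (by linarith : (0:ℝ) < h))]
          linarith
  have hfin : 1 ≤ Real.exp (J * (-(T * Y) + d * T * (7 * h + 2 * M₁)) + 18 * (d * T) * X) := by
    calc (1 : ℝ) ≤ _ := hdet
      _ ≤ E ^ J * Real.exp (9 * X) ^ (2 * (d * T)) := by
          apply mul_le_mul_of_nonneg_left _ (by positivity)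
          apply pow_le_pow_left₀ _ hbase
          have := len_nonneg (B.map ι)
          positivity
      _ = _ := by
          rw [hE, ← Real.exp_nat_mul, ← Real.exp_nat_mul, ← Real.exp_add]
          congr 1; push_cast; ring
  have hfin2 : 0 ≤ J * (-(T * Y) + d * T * (7 * h + 2 * M₁)) + 18 * (d * T) * X := by
    by_contra hneg
    push Not at hneg
    exact absurd hfin (not_le.2 (Real.exp_lt_one_iff.2 hneg))
  have hJpos : (0 : ℝ) < J := by exact_mod_cast hJ1
  have hTJ : (T : ℝ) ≤ 16 * J := by exact_mod_cast hJ16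
  have hkey : (J * T : ℝ) * Y ≤ (J * T) * (d * (7 * h + 2 * M₁) + 288 * d ^ 2 * h) := by
    have h20 : 18 * ((d : ℝ) * T) * X ≤ (J * T) * (288 * d ^ 2 * h) := by
      rw [hX]
      calc 18 * ((d : ℝ) * T) * (d * T * h) = 18 * d ^ 2 * h * T * T := by ring
        _ ≤ 18 * d ^ 2 * h * T * (16 * J) := by gcongr
        _ = _ := by ring
    nlinarith
  have hY := le_of_mul_le_mul_left hkey (by positivity)
  refine hY.trans ?_
  have hdd : (d : ℝ) ≤ d ^ 2 := by nlinarith
  have h21 : (d : ℝ) * (7 * h + 2 * M₁) ≤ d ^ 2 * (7 * h + 2 * M₁) := by gcongr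
  have h22 : (0 : ℝ) ≤ d ^ 2 * M₁ := by positivity
  have h23 : (0 : ℝ) ≤ d ^ 2 * h := by positivity
  nlinarith

end Pool.Agent.LGO.Det
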