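import Mathlib
import Pool.Agent.LGO.Eng2
import Pool.Agent.LGO.B.NmMain

/-!
# LGO, part (4c): final theorem

Statements to prove: `bd_mono`, `bd_root`, `close_main` (use `Det.det_main` and `engine2` of
`Pool.Agent.LGO.Eng` as black boxes).

PROOF of `bd_mono`.  A ring homomorphism `K' →+* ℂ` restricts to `K` along
`IntermediateField.inclusion hKK'`.

PROOF of `bd_root`.  `q ≠ 0`, `ξ` root of `q`.  Let `a = q.leadingCoeff` (a nonzero integer),
`n = a.natAbs`.  `a ξ` is integral over `ℤ` (`isIntegral_leadingCoeff_smul`, or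
`Polynomial.integralNormalization`); `n ≤ exp H`.  A conjugate `σ ⟨ξ, _⟩` is a root of `q` too
(`σ` is a ring homomorphism, the coefficients are integers), and a root `x` of `q` has
`‖x‖ ≤ 1 + max |coeff| / |a| ≤ 1 + exp H ≤ exp (H + 1)` (Cauchy bound: `Polynomial.cauchyBound`
and `IsRoot.norm_lt_cauchyBound`; or directly).  (`0 ≤ H` follows from `1 ≤ |a| ≤ exp H`.)

PROOF of `close_main`.  Put `h = X * T` (`≥ M * T ≥ 1`) and `θ = w₂ / w₁`.  Let `C₀` be the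
constant of `engine2`, `M' = 25 * X ^ 2` (`≥ X ≥ M ≥ 2`).  Apply `det_main` with `t = θ`,
`T = O`, `h`, `M₁ = T * M' ^ C₀`.  Its hypothesis `hmeas`: let `d = finrank ℚ K ≤ M ≤ X`,
`q ≠ 0`, `natDegree q ≤ 8 d`, coefficients at most `exp (24 d h)`, `ξ` a root of `q`.
Let `K' = K ⊔ ℚ⟮ξ⟯` (or `(IntermediateField.adjoin K {ξ}).restrictScalars ℚ`):
`finrank ℚ K' ≤ d * 8 d` (`finrank K K⟮ξ⟯ = natDegree (minpoly K ξ) ≤ natDegree q`;
`IntermediateField.finrank_sup_le` exists for `⊔`), so `finrank ℚ K' ≤ 8 X ^ 2 ≤ M'`.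
Apply `engine2` to `K'`, `M'`, `T`: the structures `Cur K' M' (M' * T) T ..` follow from
`Cur K M (M * T) T ..` by `bd_mono` and monotonicity in `M`; `Bd K' (M' * T) γ` by `bd_mono`;
`Bd K' (M' * T) ξ` by `bd_root` with `H = 24 d h ≤ 24 X * (X * T)` and
`H + 1 ≤ 25 X ^ 2 T` because `X ^ 2 T ≥ M T ≥ 1`.  `engine2` gives
`exp (-(T * M' ^ C₀)) ≤ ‖θ - ξ‖`.
`det_main` gives `Y ≤ 512 d ^ 2 (M₁ + h) ≤ 512 X ^ 2 (T (25 X ^ 2) ^ C₀ + X T)`; with `X ≥ 2`:
`25 ≤ X ^ 5`, `512 = 2 ^ 9 ≤ X ^ 9`, so `Y ≤ T X ^ 11 (X ^ (7 C₀) + X) ≤ T X ^ (7 C₀ + 13)`.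
-/

namespace Pool.Agent.LGO

open Polynomial Pool.Agent.EllSch

/-- `Bd` is monotone in the field and in the bound -/
theorem bd_mono {K K' : IntermediateField ℚ ℂ} (hK : K ≤ K') {M M' : ℝ} (hM : M ≤ M') {x : ℂ}
    (hx : Bd K M x) : Bd K' M' x := by
  refine ⟨hK hx.mem, ?_, ?_⟩
  · obtain ⟨n, h0, h1, h2⟩ := hx.den
    exact ⟨n, h0, h1.trans (Real.exp_le_exp.2 hM), h2⟩
  · intro σ
    have h1 := hx.house (σ.comp (IntermediateField.inclusion hK).toRingHom)
    exact h1.trans (Real.exp_le_exp.2 hM)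

/-- roots of integral polynomials of bounded height are bounded algebraic numbers -/
theorem bd_root (K : IntermediateField ℚ ℂ) (q : ℤ[X]) (hq : q ≠ 0) (H : ℝ)
    (hH : ∀ i, |(q.coeff i : ℝ)| ≤ Real.exp H) (ξ : ℂ) (hξ : aeval ξ q = 0) (hmem : ξ ∈ K) :
    Bd K (H + 1) ξ := by
  have ha : q.leadingCoeff ≠ 0 := leadingCoeff_ne_zero.2 hq
  have ha1 : (1 : ℝ) ≤ |(q.leadingCoeff : ℝ)| := by
    exact_mod_cast Int.one_le_abs ha
  have haH : |(q.leadingCoeff : ℝ)| ≤ Real.exp H := hH q.natDegree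
  have hH1 : Real.exp H ≤ Real.exp (H + 1) := Real.exp_le_exp.2 (by linarith)
  refine ⟨hmem, ⟨q.leadingCoeff.natAbs, Int.natAbs_pos.2 ha, ?_, ?_⟩, ?_⟩
  · rw [Nat.cast_natAbs, Int.cast_abs]
    exact haH.trans hH1
  · have h1 : IsIntegral ℤ (q.leadingCoeff • ξ) := isIntegral_leadingCoeff_smul q ξ hξ
    rcases Int.natAbs_eq q.leadingCoeff with h2 | h2
    · have h3 : ((q.leadingCoeff.natAbs : ℕ) : ℂ) * ξ = q.leadingCoeff • ξ := by
        rw [zsmul_eq_mul]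
        congr 1
        have := congrArg (fun z : ℤ => (z : ℂ)) h2
        simpa using this.symm
      rw [h3]; exact h1
    · have h3 : ((q.leadingCoeff.natAbs : ℕ) : ℂ) * ξ = -(q.leadingCoeff • ξ) := by
        rw [zsmul_eq_mul, ← neg_mul]
        congr 1
        have := congrArg (fun z : ℤ => -(z : ℂ)) h2
        simpa using this.symm
      rw [h3]; exact h1.neg
  · intro σ
    set x : ℂ := σ ⟨ξ, hmem⟩ with hx
    have h1 : aeval (⟨ξ, hmem⟩ : K) q = 0 := by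
      apply Subtype.ext
      have h2 := Polynomial.aeval_algebraMap_apply ℂ (⟨ξ, hmem⟩ : K) q
      have h3 : algebraMap K ℂ ⟨ξ, hmem⟩ = ξ := rfl
      rw [h3, hξ] at h2
      exact h2.symm
    have h2 : aeval x q = 0 := by
      have h3 := Polynomial.aeval_algHom_apply (σ.toIntAlgHom) (⟨ξ, hmem⟩ : K) q
      rw [h1, map_zero] at h3
      exact h3
    set ι := Int.castRingHom ℂ with hι
    have hinj : Function.Injective ι := Int.cast_injective
    have h4 : (q.map ι).IsRoot x := by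
      rw [IsRoot.def, eval_map]
      rw [aeval_def] at h2
      exact h2
    have h5 : q.map ι ≠ 0 := (Polynomial.map_ne_zero_iff hinj).2 hq
    have h6 := h4.norm_lt_cauchyBound h5
    have h7 : ((cauchyBound (q.map ι) : NNReal) : ℝ) ≤ Real.exp H + 1 := by
      unfold cauchyBound
      rw [NNReal.coe_add, NNReal.coe_one, NNReal.coe_div]
      have h8 : (((Finset.range (q.map ι).natDegree).sup (fun i => ‖(q.map ι).coeff i‖₊) : NNReal) : ℝ) ≤
          Real.exp H := by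
        have h9 : (Finset.range (q.map ι).natDegree).sup (fun i => ‖(q.map ι).coeff i‖₊) ≤
            (Real.exp H).toNNReal := by
          apply Finset.sup_le
          intro i _
          rw [← NNReal.coe_le_coe, Real.coe_toNNReal _ (Real.exp_pos H).le, coe_nnnorm, coeff_map]
          rw [hι, eq_intCast, Complex.norm_intCast]
          exact hH i
        have h10 := NNReal.coe_le_coe.2 h9
        rwa [Real.coe_toNNReal _ (Real.exp_pos H).le] at h10
      have h11 : (1 : ℝ) ≤ ((‖(q.map ι).leadingCoeff‖₊ : NNReal) : ℝ) := by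
        rw [coe_nnnorm, leadingCoeff_map_of_injective hinj, hι, eq_intCast, Complex.norm_intCast]
        exact ha1
      have h12 : (((Finset.range (q.map ι).natDegree).sup (fun i => ‖(q.map ι).coeff i‖₊) : NNReal) : ℝ) /
          ((‖(q.map ι).leadingCoeff‖₊ : NNReal) : ℝ) ≤ Real.exp H :=
        (div_le_self (NNReal.coe_nonneg _) h11).trans h8
      linarith
    have h13 : ‖x‖ ≤ Real.exp H + 1 := by
      have h14 : (‖x‖₊ : ℝ) < ((cauchyBound (q.map ι) : NNReal) : ℝ) := NNReal.coe_lt_coe.2 h6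
      rw [coe_nnnorm] at h14
      linarith
    have h15 : 1 ≤ Real.exp H := ha1.trans haH
    have h16 : (2 : ℝ) ≤ Real.exp 1 := by linarith [Real.add_one_le_exp (1 : ℝ)]
    have h17 : Real.exp (H + 1) = Real.exp H * Real.exp 1 := Real.exp_add _ _
    rw [h17]
    nlinarith

/-- **final theorem of part (4c)**: a polynomial with integral coefficients in `K` cannot have many
very small Taylor coefficients at the quotient `w₂ / w₁` of two periods -/
theorem close_main : ∃ C : ℕ, ∀ (K : IntermediateField ℚ ℂ) [FiniteDimensional ℚ K]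
    (M T X Y : ℝ) (w₁ τ₁ w₂ τ₂ γ : ℂ) (p : ℂ[X]) (O : ℕ), 2 ≤ M →
    (Module.finrank ℚ K : ℝ) ≤ M → 0 < T → 1 ≤ M * T →
    Cur K M (M * T) T w₁ τ₁ → Cur K M (M * T) T w₂ τ₂ → Gen γ (Lt w₁ τ₁) (Lt w₂ τ₂) →
    Bd K (M * T) γ → (∀ r : ℚ, w₂ ≠ r * γ * w₁) → M ≤ X → ‖w₂ / w₁‖ ≤ Real.exp (X * T) →
    16 ≤ O → Real.log O ≤ X * T → p ≠ 0 → p.natDegree ≤ O →
    ∀ hmem : ∀ i, p.coeff i ∈ K, (∀ i, IsIntegral ℤ (p.coeff i)) →
    (∀ (i : ℕ) (σ : K →+* ℂ), ‖σ ⟨p.coeff i, hmem i⟩‖ ≤ Real.exp (O * (X * T))) →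
    (∀ j : ℕ, 4 * j ≤ O → ‖(taylor (w₂ / w₁) p).coeff j‖ ≤ Real.exp (-(O * Y))) →
    Y ≤ T * X ^ C := by
  obtain ⟨C₀, hC₀⟩ := engine2
  refine ⟨7 * C₀ + 13, ?_⟩
  intro K _ M T X Y w₁ τ₁ w₂ τ₂ γ p O hM hfr hT hMT hc1 hc2 hgen hγ hrat hMX hθ hO hlogO hp hdeg
    hmem hint hhouse hsmall
  have hX2 : (2 : ℝ) ≤ X := hM.trans hMX
  have hh1 : 1 ≤ X * T := hMT.trans (mul_le_mul_of_nonneg_right hMX hT.le)
  set M' : ℝ := 25 * X ^ 2 with hM'
  have hXM' : X ≤ M' := by rw [hM']; nlinarith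
  have hMM' : M ≤ M' := hMX.trans hXM'
  have hMT' : M * T ≤ M' * T := mul_le_mul_of_nonneg_right hMM' hT.le
  have hM'0 : 0 ≤ M' := by positivity
  have hd0 : (0 : ℝ) ≤ Module.finrank ℚ K := Nat.cast_nonneg _
  have hdX : (Module.finrank ℚ K : ℝ) ≤ X := hfr.trans hMX
  have hmeas : ∀ (q : ℤ[X]) (ξ : ℂ), q ≠ 0 → q.natDegree ≤ 8 * Module.finrank ℚ K →
      (∀ i, |(q.coeff i : ℝ)| ≤ Real.exp (24 * Module.finrank ℚ K * (X * T))) → aeval ξ q = 0 →
      Real.exp (-(T * M' ^ C₀)) ≤ ‖w₂ / w₁ - ξ‖ := by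
    intro q ξ hq hqdeg hqc hqξ
    have hinj : Function.Injective (Int.castRingHom ℚ) := Int.cast_injective
    have hq' : q.map (Int.castRingHom ℚ) ≠ 0 := (Polynomial.map_ne_zero_iff hinj).2 hq
    have hqξ' : aeval ξ (q.map (Int.castRingHom ℚ)) = 0 := by
      have h1 := Polynomial.aeval_map_algebraMap ℚ ξ q
      rw [hqξ] at h1
      exact h1
    have hξi : IsIntegral ℚ ξ := by
      rw [← isAlgebraic_iff_isIntegral]
      exact ⟨_, hq', hqξ'⟩
    have hξd : Module.finrank ℚ (IntermediateField.adjoin ℚ {ξ}) ≤ 8 * Module.finrank ℚ K := by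
      rw [IntermediateField.adjoin.finrank hξi]
      refine (natDegree_le_natDegree (minpoly.degree_le_of_ne_zero ℚ ξ hq' hqξ')).trans ?_
      exact natDegree_map_le.trans hqdeg
    have : FiniteDimensional ℚ (IntermediateField.adjoin ℚ {ξ}) :=
      IntermediateField.adjoin.finiteDimensional hξi
    set K' : IntermediateField ℚ ℂ := K ⊔ IntermediateField.adjoin ℚ {ξ} with hK'
    have : FiniteDimensional ℚ K' := IntermediateField.finiteDimensional_sup _ _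
    have hKK' : K ≤ K' := le_sup_left
    have hξK' : ξ ∈ K' :=
      (le_sup_right : IntermediateField.adjoin ℚ {ξ} ≤ K') (IntermediateField.mem_adjoin_simple_self ℚ ξ)
    have hfr' : (Module.finrank ℚ K' : ℝ) ≤ M' := by
      have h1 : Module.finrank ℚ K' ≤
          Module.finrank ℚ K * Module.finrank ℚ (IntermediateField.adjoin ℚ {ξ}) :=
        IntermediateField.finrank_sup_le _ _
      have h2 : Module.finrank ℚ K' ≤ Module.finrank ℚ K * (8 * Module.finrank ℚ K) :=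
        h1.trans (Nat.mul_le_mul_left _ hξd)
      have h3 : (Module.finrank ℚ K' : ℝ) ≤
          (Module.finrank ℚ K : ℝ) * (8 * (Module.finrank ℚ K : ℝ)) := by exact_mod_cast h2
      refine h3.trans ?_
      rw [hM']
      nlinarith
    have hcur : ∀ w τ : ℂ, Cur K M (M * T) T w τ → Cur K' M' (M' * T) T w τ := by
      intro w τ hc
      exact ⟨hc.w0, hc.im_pos, hc.im,
        fun v hv hv0 => (hc.sh v hv hv0).trans (mul_le_mul_of_nonneg_right hMM' (norm_nonneg _)),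
        bd_mono hKK' hMT' hc.g2, bd_mono hKK' hMT' hc.g3⟩
    have hbξ : Bd K' (M' * T) ξ := by
      have h1 := bd_root K' q hq (24 * Module.finrank ℚ K * (X * T)) hqc ξ hqξ hξK'
      refine bd_mono le_rfl ?_ h1
      have h2 : 24 * (Module.finrank ℚ K : ℝ) * (X * T) ≤ 24 * X * (X * T) := by
        apply mul_le_mul_of_nonneg_right _ (by linarith)
        linarith
      have h3 : 1 ≤ X * (X * T) := by nlinarith
      rw [hM']
      nlinarith
    exact hC₀ K' M' T w₁ τ₁ w₂ τ₂ γ ξ (hM.trans hMM') hfr' hT (hMT.trans hMT') (hcur _ _ hc1)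
      (hcur _ _ hc2) hgen (bd_mono hKK' hMT' hγ) hrat hbξ
  have hdet := Det.det_main K p (w₂ / w₁) O (X * T) (T * M' ^ C₀) Y hO hp hdeg hmem hint hhouse hh1
    hlogO hθ (by positivity) hmeas hsmall
  refine hdet.trans ?_
  have hX1 : (1 : ℝ) ≤ X := by linarith
  have e1 : (512 : ℝ) ≤ X ^ 9 := by
    calc (512 : ℝ) = 2 ^ 9 := by norm_num
      _ ≤ X ^ 9 := pow_le_pow_left₀ (by norm_num) hX2 9
  have e2 : M' ≤ X ^ 7 := by
    have h1 : (25 : ℝ) ≤ X ^ 5 := by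
      calc (25 : ℝ) ≤ 2 ^ 5 := by norm_num
        _ ≤ X ^ 5 := pow_le_pow_left₀ (by norm_num) hX2 5
    calc M' = 25 * X ^ 2 := hM'
      _ ≤ X ^ 5 * X ^ 2 := mul_le_mul_of_nonneg_right h1 (by positivity)
      _ = X ^ 7 := by rw [← pow_add]
  have e3 : M' ^ C₀ ≤ X ^ (7 * C₀) := by
    calc M' ^ C₀ ≤ (X ^ 7) ^ C₀ := pow_le_pow_left₀ hM'0 e2 C₀
      _ = X ^ (7 * C₀) := by rw [← pow_mul]
  have e4 : (Module.finrank ℚ K : ℝ) ^ 2 ≤ X ^ 2 := pow_le_pow_left₀ hd0 hdX 2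
  have e5 : T * M' ^ C₀ + X * T ≤ T * X ^ (7 * C₀ + 2) := by
    have h1 : X ^ (7 * C₀) ≤ X ^ (7 * C₀ + 1) := pow_le_pow_right₀ hX1 (by omega)
    have h2 : X ≤ X ^ (7 * C₀ + 1) := by
      calc X = X ^ 1 := (pow_one X).symm
        _ ≤ X ^ (7 * C₀ + 1) := pow_le_pow_right₀ hX1 (by omega)
    have h3 : X ^ (7 * C₀ + 2) = X ^ (7 * C₀ + 1) * X := by rw [← pow_succ]
    have h4 : 0 ≤ X ^ (7 * C₀ + 1) := by positivity
    have h5 : M' ^ C₀ + X ≤ X ^ (7 * C₀ + 2) := by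
      rw [h3]; nlinarith
    calc T * M' ^ C₀ + X * T = T * (M' ^ C₀ + X) := by ring
      _ ≤ T * X ^ (7 * C₀ + 2) := mul_le_mul_of_nonneg_left h5 hT.le
  calc 512 * (Module.finrank ℚ K : ℝ) ^ 2 * (T * M' ^ C₀ + X * T)
      ≤ X ^ 9 * X ^ 2 * (T * X ^ (7 * C₀ + 2)) := by
        apply mul_le_mul _ e5 (by positivity) (by positivity)
        exact mul_le_mul e1 e4 (by positivity) (by positivity)
    _ = T * X ^ (7 * C₀ + 13) := by ring

end Pool.Agent.LGO
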