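import Mathlib
import Pool.Agent.LGO.EngDefs
import Pool.Agent.EllSch.Basic

/-!
# LGO: from an algebraic relation to an index

`index3`: if a nontrivial polynomial relation of degree `< L₃` in the last variable holds between
`1 / ℘₁ (z₁)`, `1 / ℘₂ (z₂)`, `1 / ℘₃ (l₁ z₁ + l₂ z₂)` then `n l₁ Λ₁ ⊆ Λ₃` and `n l₂ Λ₂ ⊆ Λ₃` for some
positive integer `n < L₃`.  `index1`: the same in one variable.
-/

namespace Pool.Agent.LGO.B

open Pool.Agent.EllSch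

theorem ind_of {w τ : ℂ} (hw : w ≠ 0) (hτ : 0 < τ.im) : Ind w (w * τ) := by
  unfold Ind
  have e : w.re * (w * τ).im - w.im * (w * τ).re = Complex.normSq w * τ.im := by
    simp only [Complex.mul_re, Complex.mul_im, Complex.normSq_apply]
    ring
  rw [e]
  exact mul_ne_zero (Complex.normSq_pos.2 hw).ne' hτ.ne'

theorem mem_Lt {w τ z : ℂ} : z ∈ Lt w τ ↔ ∃ x, z = lat w (w * τ) x := by
  constructor
  · rintro ⟨m, n, e⟩
    exact ⟨(m, n), e⟩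
  · rintro ⟨x, e⟩
    exact ⟨x.1, x.2, e⟩

theorem not_off_iff_mem {w τ z : ℂ} : ¬ Off w (w * τ) z ↔ z ∈ Lt w τ := by
  rw [Basic.not_off_iff, mem_Lt]

theorem countable_Lt (w τ : ℂ) : {z : ℂ | z ∈ Lt w τ}.Countable := by
  have : {z : ℂ | z ∈ Lt w τ} = Set.range (lat w (w * τ)) := by
    ext z
    simp only [Set.mem_ofPred_eq, mem_Lt, Set.mem_range]
    constructor
    · rintro ⟨x, e⟩
      exact ⟨x, e.symm⟩
    · rintro ⟨x, e⟩
      exact ⟨x, e.symm⟩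
  rw [this]
  exact Set.countable_range _

theorem wp_eq_cases {a b : ℂ} (h : Ind a b) {z w : ℂ} (hz : Off a b z) (hw : Off a b w)
    (e : wp a b z = wp a b w) : (∃ x, z = w + lat a b x) ∨ ∃ x, z = -w + lat a b x := by
  have h1 : wq a b z ^ 2 = wq a b w ^ 2 := by
    rw [ode h hz, ode h hw, e]
  rcases sq_eq_sq_iff_eq_or_eq_neg.1 h1 with h2 | h2
  · exact Or.inl (exists_lat_of_eq h hz hw e h2)
  · right
    have hw' : Off a b (-w) := off_neg.2 hw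
    exact exists_lat_of_eq h hz hw' (by rw [wp_neg h, e]) (by rw [wq_neg h, h2])

theorem countable_fiber {a b : ℂ} (h : Ind a b) (c : ℂ) :
    {z : ℂ | Off a b z ∧ wp a b z = c}.Countable := by
  rcases Set.eq_empty_or_nonempty {z : ℂ | Off a b z ∧ wp a b z = c} with h0 | ⟨w, hw, hwc⟩
  · rw [h0]
    exact Set.countable_empty
  · refine ((Set.countable_range fun x : ℤ × ℤ => w + lat a b x).union
      (Set.countable_range fun x : ℤ × ℤ => -w + lat a b x)).mono ?_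
    rintro z ⟨hz, hzc⟩
    rcases wp_eq_cases h hz hw (hzc.trans hwc.symm) with ⟨x, e⟩ | ⟨x, e⟩
    · exact Or.inl ⟨x, e.symm⟩
    · exact Or.inr ⟨x, e.symm⟩

/-- a nonzero polynomial with `L` coefficients has fewer than `L` roots -/
theorem roots_bound {L : ℕ} (a : Fin L → ℂ) (ha : ∃ i, a i ≠ 0) (s : Finset ℂ)
    (hs : ∀ x ∈ s, ∑ i, a i * x ^ (i : ℕ) = 0) : s.card < L := by
  classical
  obtain ⟨i0, hi0⟩ := ha
  have hLpos : 0 < L := lt_of_le_of_lt (Nat.zero_le _) i0.2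
  set p : Polynomial ℂ := ∑ i : Fin L, Polynomial.C (a i) * Polynomial.X ^ (i : ℕ) with hp
  have hdeg : p.degree < L := Polynomial.degree_sum_fin_lt a
  have hcoef : p.coeff i0 = a i0 := by
    rw [hp, Polynomial.finsetSum_coeff, Finset.sum_eq_single i0]
    · simp
    · intro j _ hj
      rw [Polynomial.coeff_C_mul, Polynomial.coeff_X_pow, if_neg, mul_zero]
      intro h
      exact hj (Fin.ext h.symm)
    · intro h
      exact absurd (Finset.mem_univ _) h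
  have hp0 : p ≠ 0 := by
    intro h
    rw [h, Polynomial.coeff_zero] at hcoef
    exact hi0 hcoef.symm
  have hsub : s ⊆ p.roots.toFinset := by
    intro x hx
    rw [Multiset.mem_toFinset, Polynomial.mem_roots hp0, Polynomial.IsRoot.def, hp,
      Polynomial.eval_finsetSum, ← hs x hx]
    refine Finset.sum_congr rfl fun i _ => ?_
    simp
  have h1 : s.card ≤ p.natDegree :=
    (Finset.card_le_card hsub).trans ((Multiset.toFinset_card_le _).trans (Polynomial.card_roots' p))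
  have h2 : p.natDegree < L := (Polynomial.natDegree_lt_iff_degree_lt hp0).2 hdeg
  omega

theorem finite_roots {L : ℕ} (a : Fin L → ℂ) (ha : ∃ i, a i ≠ 0) :
    {x : ℂ | ∑ i, a i * x ^ (i : ℕ) = 0}.Finite := by
  by_contra hinf
  obtain ⟨t, ht, hc⟩ := Set.Infinite.exists_subset_card_eq (s := {x : ℂ | ∑ i, a i * x ^ (i : ℕ) = 0})
    hinf L
  have := roots_bound a ha t (fun x hx => ht hx)
  omega

theorem countable_bad {a b : ℂ} (h : Ind a b) {L : ℕ} (c : Fin L → ℂ) (hc : ∃ i, c i ≠ 0) :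
    {z : ℂ | Off a b z ∧ ∑ i, c i * (1 / wp a b z) ^ (i : ℕ) = 0}.Countable := by
  have h1 : {z : ℂ | Off a b z ∧ ∑ i, c i * (1 / wp a b z) ^ (i : ℕ) = 0} ⊆
      ⋃ r ∈ {x : ℂ | ∑ i, c i * x ^ (i : ℕ) = 0}, {z : ℂ | Off a b z ∧ wp a b z = r⁻¹} := by
    rintro z ⟨hz, hz0⟩
    simp only [Set.mem_iUnion]
    refine ⟨1 / wp a b z, hz0, hz, ?_⟩
    rw [one_div, inv_inv]
  exact ((finite_roots c hc).countable.biUnion fun r _ => countable_fiber h _).mono h1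

/-- a subgroup all of whose finite subsets of pairwise incongruent elements are small -/
theorem group_index (Λ G : AddSubgroup ℂ) (L : ℕ)
    (hL : ∀ s : Finset ℂ, (∀ g ∈ s, g ∈ G) → (∀ g ∈ s, ∀ g' ∈ s, g - g' ∈ Λ → g = g') →
      s.card < L) : ∃ n : ℕ, 0 < n ∧ n < L ∧ ∀ g ∈ G, (n : ℂ) * g ∈ Λ := by
  classical
  set H : AddSubgroup (ℂ ⧸ Λ) := G.map (QuotientAddGroup.mk' Λ) with hH
  have hrep : ∀ x : ℂ ⧸ Λ, x ∈ H → ∃ g ∈ G, (QuotientAddGroup.mk' Λ) g = x := by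
    intro x hx
    exact AddSubgroup.mem_map.1 hx
  choose! f hfG hf using hrep
  have hfin : ∀ t : Finset (ℂ ⧸ Λ), (↑t ⊆ (H : Set (ℂ ⧸ Λ))) → t.card < L := by
    intro t ht
    have hinj : Set.InjOn f (t : Set (ℂ ⧸ Λ)) := by
      intro x hx y hy e
      rw [← hf x (ht hx), ← hf y (ht hy), e]
    rw [← Finset.card_image_of_injOn hinj]
    refine hL _ ?_ ?_
    · intro g hg
      obtain ⟨x, hx, rfl⟩ := Finset.mem_image.1 hg
      exact hfG x (ht hx)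
    · intro g hg g' hg' e
      obtain ⟨x, hx, rfl⟩ := Finset.mem_image.1 hg
      obtain ⟨y, hy, rfl⟩ := Finset.mem_image.1 hg'
      have h1 : (QuotientAddGroup.mk' Λ) (f x) = (QuotientAddGroup.mk' Λ) (f y) := by
        rw [← sub_eq_zero, ← map_sub]
        exact (QuotientAddGroup.eq_zero_iff _).2 e
      rw [hf x (ht hx), hf y (ht hy)] at h1
      rw [h1]
  have hHfin : (H : Set (ℂ ⧸ Λ)).Finite := by
    by_contra hinf
    obtain ⟨t, ht, hc⟩ := Set.Infinite.exists_subset_card_eq (s := (H : Set (ℂ ⧸ Λ))) hinf L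
    have := hfin t ht
    omega
  have : Finite H := hHfin
  refine ⟨Nat.card H, Nat.card_pos, ?_, ?_⟩
  · have h1 := hfin hHfin.toFinset (by simp)
    have h2 : Nat.card H = hHfin.toFinset.card := by
      rw [← Nat.card_eq_card_finite_toFinset hHfin]
      rfl
    rw [h2]
    exact h1
  · intro g hg
    have hgH : (QuotientAddGroup.mk' Λ) g ∈ H := AddSubgroup.mem_map_of_mem _ hg
    have h1 : Nat.card H • (⟨(QuotientAddGroup.mk' Λ) g, hgH⟩ : H) = 0 := card_nsmul_eq_zero'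
    have h2 : Nat.card H • (QuotientAddGroup.mk' Λ) g = 0 := by
      have := congrArg H.subtype h1
      rw [map_nsmul, map_zero] at this
      exact this
    rw [← map_nsmul] at h2
    have h3 := (QuotientAddGroup.eq_zero_iff _).1 h2
    rw [nsmul_eq_mul] at h3
    exact h3

theorem exists_notMem_of_countable {S : Set ℂ} (hS : S.Countable) : ∃ z, z ∉ S := by
  obtain ⟨z, hz⟩ := (hS.dense_compl ℝ).nonempty
  exact ⟨z, hz⟩

/-- **index from a relation in two variables** -/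
theorem index3 {w₁ τ₁ w₂ τ₂ w₃ τ₃ l₁ l₂ : ℂ} (hw₁ : w₁ ≠ 0) (hτ₁ : 0 < τ₁.im) (hw₂ : w₂ ≠ 0)
    (hτ₂ : 0 < τ₂.im) (hw₃ : w₃ ≠ 0) (hτ₃ : 0 < τ₃.im) (hl : l₁ ≠ 0 ∨ l₂ ≠ 0) {L₁ L₂ L₃ : ℕ}
    (c : Fin L₁ → Fin L₂ → Fin L₃ → ℂ) (hc : ∃ i j k, c i j k ≠ 0)
    (hvan : ∀ z₁ z₂ : ℂ, Off w₁ (w₁ * τ₁) z₁ → Off w₂ (w₂ * τ₂) z₂ →
      Off w₃ (w₃ * τ₃) (l₁ * z₁ + l₂ * z₂) → wp w₁ (w₁ * τ₁) z₁ ≠ 0 → wp w₂ (w₂ * τ₂) z₂ ≠ 0 →
      wp w₃ (w₃ * τ₃) (l₁ * z₁ + l₂ * z₂) ≠ 0 →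
      ∑ i, ∑ j, ∑ k, c i j k * (1 / wp w₁ (w₁ * τ₁) z₁) ^ (i : ℕ) *
        (1 / wp w₂ (w₂ * τ₂) z₂) ^ (j : ℕ) *
        (1 / wp w₃ (w₃ * τ₃) (l₁ * z₁ + l₂ * z₂)) ^ (k : ℕ) = 0) :
    ∃ n : ℕ, 0 < n ∧ n < L₃ ∧ Mp (n * l₁) (Lt w₁ τ₁) (Lt w₃ τ₃) ∧
      Mp (n * l₂) (Lt w₂ τ₂) (Lt w₃ τ₃) := by
  classical
  have i1 := ind_of hw₁ hτ₁
  have i2 := ind_of hw₂ hτ₂
  have i3 := ind_of hw₃ hτ₃
  obtain ⟨i0, j0, k0, hc0⟩ := hc
  set G : AddSubgroup ℂ :=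
    (Lt w₁ τ₁).map (AddMonoidHom.mulLeft l₁) ⊔ (Lt w₂ τ₂).map (AddMonoidHom.mulLeft l₂) with hG
  have hmem : ∀ g ∈ G, ∃ x₁ x₂ : ℤ × ℤ, g = l₁ * lat w₁ (w₁ * τ₁) x₁ + l₂ * lat w₂ (w₂ * τ₂) x₂ := by
    intro g hg
    obtain ⟨y, hy, z, hz, e⟩ := AddSubgroup.mem_sup.1 hg
    obtain ⟨y', hy', rfl⟩ := AddSubgroup.mem_map.1 hy
    obtain ⟨z', hz', rfl⟩ := AddSubgroup.mem_map.1 hz
    obtain ⟨x₁, rfl⟩ := mem_Lt.1 hy'
    obtain ⟨x₂, rfl⟩ := mem_Lt.1 hz'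
    exact ⟨x₁, x₂, e.symm⟩
  obtain ⟨n, hn, hnL, hnG⟩ := group_index (Lt w₃ τ₃) G L₃ (by
    intro s hsG hsd
    -- exceptional sets
    set Ew : Set ℂ := (⋃ g ∈ s, ({u : ℂ | u + g ∈ Lt w₃ τ₃} ∪
        {u : ℂ | Off w₃ (w₃ * τ₃) (u + g) ∧ wp w₃ (w₃ * τ₃) (u + g) = 0})) ∪
      ⋃ g ∈ s, ⋃ g' ∈ s, {u : ℂ | 2 * u + g + g' ∈ Lt w₃ τ₃} with hEw
    have hEwc : Ew.Countable := by
      have hinj : ∀ g : ℂ, Function.Injective fun u : ℂ => u + g := fun g => add_left_injective g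
      refine Set.Countable.union ?_ ?_
      · refine s.countable_toSet.biUnion fun g _ => Set.Countable.union ?_ ?_
        · exact (countable_Lt w₃ τ₃).preimage (hinj g)
        · exact (countable_fiber i3 0).preimage (hinj g)
      · refine s.countable_toSet.biUnion fun g _ => s.countable_toSet.biUnion fun g' _ => ?_
        refine (countable_Lt w₃ τ₃).preimage (f := fun u : ℂ => 2 * u + g + g') ?_
        intro u v huv
        have : (2 : ℂ) * u = 2 * v := by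
          have := huv
          simp only at this
          linear_combination this
        exact mul_left_cancel₀ two_ne_zero this
    set E1 : Set ℂ := {z : ℂ | z ∈ Lt w₁ τ₁} ∪ {z : ℂ | Off w₁ (w₁ * τ₁) z ∧ wp w₁ (w₁ * τ₁) z = 0} ∪
      {z : ℂ | Off w₁ (w₁ * τ₁) z ∧ ∑ i, c i j0 k0 * (1 / wp w₁ (w₁ * τ₁) z) ^ (i : ℕ) = 0} with hE1
    have hE1c : E1.Countable :=
      ((countable_Lt _ _).union (countable_fiber i1 0)).union (countable_bad i1 _ ⟨i0, hc0⟩)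
    -- choice of the points
    obtain ⟨z₁, z₂, hz1, hz2, hzw⟩ : ∃ z₁ z₂ : ℂ, z₁ ∉ E1 ∧
        z₂ ∉ ({z : ℂ | z ∈ Lt w₂ τ₂} ∪ {z : ℂ | Off w₂ (w₂ * τ₂) z ∧ wp w₂ (w₂ * τ₂) z = 0} ∪
          {z : ℂ | Off w₂ (w₂ * τ₂) z ∧
            ∑ j, (∑ i, c i j k0 * (1 / wp w₁ (w₁ * τ₁) z₁) ^ (i : ℕ)) *
              (1 / wp w₂ (w₂ * τ₂) z) ^ (j : ℕ) = 0} : Set ℂ) ∧
        l₁ * z₁ + l₂ * z₂ ∉ Ew := by
      have step2 : ∀ z₁ : ℂ, z₁ ∉ E1 → ({z : ℂ | z ∈ Lt w₂ τ₂} ∪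
          {z : ℂ | Off w₂ (w₂ * τ₂) z ∧ wp w₂ (w₂ * τ₂) z = 0} ∪
          {z : ℂ | Off w₂ (w₂ * τ₂) z ∧
            ∑ j, (∑ i, c i j k0 * (1 / wp w₁ (w₁ * τ₁) z₁) ^ (i : ℕ)) *
              (1 / wp w₂ (w₂ * τ₂) z) ^ (j : ℕ) = 0} : Set ℂ).Countable := by
        intro z₁ hz1
        refine ((countable_Lt _ _).union (countable_fiber i2 0)).union (countable_bad i2 _ ⟨j0, ?_⟩)
        intro h0
        apply hz1
        by_cases hoff : Off w₁ (w₁ * τ₁) z₁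
        · exact Or.inr ⟨hoff, h0⟩
        · exact Or.inl (Or.inl (not_off_iff_mem.1 hoff))
      by_cases hl2 : l₂ = 0
      · have hl1 : l₁ ≠ 0 := by
          rcases hl with h | h
          · exact h
          · exact absurd hl2 h
        have hc1 : (E1 ∪ (fun z => l₁ * z) ⁻¹' Ew).Countable :=
          hE1c.union (hEwc.preimage (mul_right_injective₀ hl1))
        obtain ⟨z₁, hz1⟩ := exists_notMem_of_countable hc1
        have hz1' : z₁ ∉ E1 := fun h => hz1 (Or.inl h)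
        obtain ⟨z₂, hz2⟩ := exists_notMem_of_countable (step2 z₁ hz1')
        refine ⟨z₁, z₂, hz1', hz2, ?_⟩
        rw [hl2, zero_mul, add_zero]
        exact fun h => hz1 (Or.inr h)
      · obtain ⟨z₁, hz1⟩ := exists_notMem_of_countable hE1c
        have hc2 := (step2 z₁ hz1).union (hEwc.preimage (f := fun z => l₁ * z₁ + l₂ * z) (by
          intro u v huv
          have : l₂ * u = l₂ * v := add_left_cancel huv
          exact mul_left_cancel₀ hl2 this))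
        obtain ⟨z₂, hz2⟩ := exists_notMem_of_countable hc2
        exact ⟨z₁, z₂, hz1, fun h => hz2 (Or.inl h), fun h => hz2 (Or.inr h)⟩
    set u : ℂ := l₁ * z₁ + l₂ * z₂ with hu
    have o1 : Off w₁ (w₁ * τ₁) z₁ := by
      by_contra h
      exact hz1 (Or.inl (Or.inl (not_off_iff_mem.1 h)))
    have n1 : wp w₁ (w₁ * τ₁) z₁ ≠ 0 := fun h => hz1 (Or.inl (Or.inr ⟨o1, h⟩))
    have o2 : Off w₂ (w₂ * τ₂) z₂ := by
      by_contra h
      exact hz2 (Or.inl (Or.inl (not_off_iff_mem.1 h)))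
    have n2 : wp w₂ (w₂ * τ₂) z₂ ≠ 0 := fun h => hz2 (Or.inl (Or.inr ⟨o2, h⟩))
    have p2 : ∑ j, (∑ i, c i j k0 * (1 / wp w₁ (w₁ * τ₁) z₁) ^ (i : ℕ)) *
        (1 / wp w₂ (w₂ * τ₂) z₂) ^ (j : ℕ) ≠ 0 := fun h => hz2 (Or.inr ⟨o2, h⟩)
    have o3 : ∀ g ∈ s, Off w₃ (w₃ * τ₃) (u + g) := by
      intro g hg
      by_contra h
      apply hzw
      refine Or.inl ?_
      simp only [Set.mem_iUnion]
      exact ⟨g, hg, Or.inl (not_off_iff_mem.1 h)⟩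
    have n3 : ∀ g ∈ s, wp w₃ (w₃ * τ₃) (u + g) ≠ 0 := by
      intro g hg h
      apply hzw
      refine Or.inl ?_
      simp only [Set.mem_iUnion]
      exact ⟨g, hg, Or.inr ⟨o3 g hg, h⟩⟩
    have n4 : ∀ g ∈ s, ∀ g' ∈ s, 2 * u + g + g' ∉ Lt w₃ τ₃ := by
      intro g hg g' hg' h
      apply hzw
      refine Or.inr ?_
      simp only [Set.mem_iUnion]
      exact ⟨g, hg, g', hg', h⟩
    -- the values of the third function
    set v : ℂ → ℂ := fun g => 1 / wp w₃ (w₃ * τ₃) (u + g) with hv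
    have hvinj : Set.InjOn v (s : Set ℂ) := by
      intro g hg g' hg' e
      have e1 : wp w₃ (w₃ * τ₃) (u + g) = wp w₃ (w₃ * τ₃) (u + g') := by
        have := e
        simp only [hv, one_div, inv_inj] at this
        exact this
      rcases wp_eq_cases i3 (o3 g hg) (o3 g' hg') e1 with ⟨x, hx⟩ | ⟨x, hx⟩
      · refine hsd g hg g' hg' ?_
        rw [mem_Lt]
        exact ⟨x, by linear_combination hx⟩
      · exact absurd (mem_Lt.2 ⟨x, by linear_combination hx⟩) (n4 g hg g' hg')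
    rw [← Finset.card_image_of_injOn hvinj]
    refine roots_bound (fun k => ∑ j, (∑ i, c i j k * (1 / wp w₁ (w₁ * τ₁) z₁) ^ (i : ℕ)) *
        (1 / wp w₂ (w₂ * τ₂) z₂) ^ (j : ℕ)) ⟨k0, p2⟩ _ ?_
    intro x hx
    obtain ⟨g, hg, rfl⟩ := Finset.mem_image.1 hx
    obtain ⟨x₁, x₂, hgx⟩ := hmem g (hsG g hg)
    have e3 : l₁ * (z₁ + lat w₁ (w₁ * τ₁) x₁) + l₂ * (z₂ + lat w₂ (w₂ * τ₂) x₂) = u + g := by
      rw [hgx, hu]
      ring
    have h1 := hvan (z₁ + lat w₁ (w₁ * τ₁) x₁) (z₂ + lat w₂ (w₂ * τ₂) x₂)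
      ((off_add_lat x₁).2 o1) ((off_add_lat x₂).2 o2) (by rw [e3]; exact o3 g hg)
      (by rw [wp_add_lat i1]; exact n1) (by rw [wp_add_lat i2]; exact n2)
      (by rw [e3]; exact n3 g hg)
    rw [wp_add_lat i1, wp_add_lat i2, e3] at h1
    rw [← h1]
    simp only [Finset.sum_mul]
    rw [Finset.sum_comm]
    rw [Finset.sum_comm (s := Finset.univ) (t := Finset.univ)
      (f := fun i j => ∑ k, c i j k * (1 / wp w₁ (w₁ * τ₁) z₁) ^ (i : ℕ) *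
        (1 / wp w₂ (w₂ * τ₂) z₂) ^ (j : ℕ) * (1 / wp w₃ (w₃ * τ₃) (u + g)) ^ (k : ℕ))]
    refine Finset.sum_congr rfl fun j _ => ?_
    rw [Finset.sum_comm])
  refine ⟨n, hn, hnL, ?_, ?_⟩
  · intro x hx
    rw [mul_assoc]
    exact hnG _ (AddSubgroup.mem_sup_left (AddSubgroup.mem_map_of_mem _ hx))
  · intro x hx
    rw [mul_assoc]
    exact hnG _ (AddSubgroup.mem_sup_right (AddSubgroup.mem_map_of_mem _ hx))

/-- **index from a relation in one variable** -/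
theorem index1 {w₁ τ₁ w₂ τ₂ l : ℂ} (hw₁ : w₁ ≠ 0) (hτ₁ : 0 < τ₁.im) (hw₂ : w₂ ≠ 0)
    (hτ₂ : 0 < τ₂.im) (hl : l ≠ 0) {L₁ L₂ : ℕ} (c : Fin L₁ → Fin L₂ → ℂ)
    (hc : ∃ i j, c i j ≠ 0)
    (hvan : ∀ z : ℂ, Off w₁ (w₁ * τ₁) z → Off w₂ (w₂ * τ₂) (l * z) → wp w₁ (w₁ * τ₁) z ≠ 0 →
      wp w₂ (w₂ * τ₂) (l * z) ≠ 0 →
      ∑ i, ∑ j, c i j * (1 / wp w₁ (w₁ * τ₁) z) ^ (i : ℕ) *
        (1 / wp w₂ (w₂ * τ₂) (l * z)) ^ (j : ℕ) = 0) :
    ∃ n : ℕ, 0 < n ∧ n < L₂ ∧ Mp (n * l) (Lt w₁ τ₁) (Lt w₂ τ₂) := by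
  obtain ⟨i0, j0, h0⟩ := hc
  obtain ⟨n, h1, h2, h3, -⟩ := index3 (w₁ := w₁) (τ₁ := τ₁) (w₂ := w₁) (τ₂ := τ₁) (w₃ := w₂)
    (τ₃ := τ₂) (l₁ := l) (l₂ := 0) hw₁ hτ₁ hw₁ hτ₁ hw₂ hτ₂ (Or.inl hl) (L₁ := L₁) (L₂ := 1)
    (L₃ := L₂) (fun i _ k => c i k) ⟨i0, 0, j0, h0⟩ (by
      intro z₁ z₂ o1 o2 o3 n1 n2 n3
      rw [zero_mul, add_zero] at o3 n3 ⊢
      have := hvan z₁ o1 o3 n1 n3
      simpa using this)
  exact ⟨n, h1, h2, h3⟩

end Pool.Agent.LGO.B
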