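import Mathlib

/-!
# LGO, part (4c): factors of high multiplicity

General lemmas on integral polynomials:
* `wn`: truncated weighted norm of a complex polynomial, division step `wn_div`;
* `split`: `P = A Q`, `A` a product of irreducible polynomials `p` with `p ^ (J + 1) ∣ P`, and no
  `(J + 1)`-st power of an irreducible polynomial divides `Q`;
* `rootMultiplicity_le`: then all complex roots of `Q` have multiplicity at most `J`;
* `natDegree_big`, `mahler_big`: degree and Mahler measure of the irreducible polynomials `p` with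
  `p ^ (J + 1) ∣ P`.
-/

namespace Pool.Agent.LGO.B

open Polynomial

noncomputable section

/-- truncated weighted norm -/
def wn (m : ℕ) (r : ℝ) (P : ℂ[X]) : ℝ := ∑ j ∈ Finset.range m, ‖P.coeff j‖ * r ^ j

lemma wn_nonneg {m : ℕ} {r : ℝ} (hr : 0 ≤ r) (P : ℂ[X]) : 0 ≤ wn m r P :=
  Finset.sum_nonneg fun _ _ => mul_nonneg (norm_nonneg _) (pow_nonneg hr _)

lemma wn_add_le {m : ℕ} {r : ℝ} (hr : 0 ≤ r) (P Q : ℂ[X]) : wn m r (P + Q) ≤ wn m r P + wn m r Q := by
  unfold wn
  rw [← Finset.sum_add_distrib]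
  refine Finset.sum_le_sum fun j _ => ?_
  rw [coeff_add, ← add_mul]
  exact mul_le_mul_of_nonneg_right (norm_add_le _ _) (pow_nonneg hr _)

lemma wn_sub_le {m : ℕ} {r : ℝ} (hr : 0 ≤ r) (P Q : ℂ[X]) : wn m r (P - Q) ≤ wn m r P + wn m r Q := by
  unfold wn
  rw [← Finset.sum_add_distrib]
  refine Finset.sum_le_sum fun j _ => ?_
  rw [coeff_sub, ← add_mul]
  exact mul_le_mul_of_nonneg_right (norm_sub_le _ _) (pow_nonneg hr _)

lemma wn_C_mul (m : ℕ) (r : ℝ) (a : ℂ) (P : ℂ[X]) : wn m r (C a * P) = ‖a‖ * wn m r P := by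
  unfold wn
  rw [Finset.mul_sum]
  refine Finset.sum_congr rfl fun j _ => ?_
  rw [coeff_C_mul, norm_mul, mul_assoc]

lemma wn_mul_le {m : ℕ} {r : ℝ} (hr : 0 ≤ r) (P Q : ℂ[X]) : wn m r (P * Q) ≤ wn m r P * wn m r Q := by
  classical
  unfold wn
  rw [Finset.sum_mul_sum, ← Finset.sum_product']
  have h1 : ∑ j ∈ Finset.range m, ‖(P * Q).coeff j‖ * r ^ j ≤
      ∑ j ∈ Finset.range m, ∑ x ∈ Finset.HasAntidiagonal.antidiagonal j,
        (‖P.coeff x.1‖ * r ^ x.1) * (‖Q.coeff x.2‖ * r ^ x.2) := by
    refine Finset.sum_le_sum fun j _ => ?_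
    rw [coeff_mul]
    calc ‖∑ x ∈ Finset.HasAntidiagonal.antidiagonal j, P.coeff x.1 * Q.coeff x.2‖ * r ^ j
        ≤ (∑ x ∈ Finset.HasAntidiagonal.antidiagonal j, ‖P.coeff x.1 * Q.coeff x.2‖) * r ^ j :=
          mul_le_mul_of_nonneg_right (norm_sum_le _ _) (pow_nonneg hr _)
      _ = _ := by
          rw [Finset.sum_mul]
          refine Finset.sum_congr rfl fun x hx => ?_
          have := Finset.HasAntidiagonal.mem_antidiagonal.1 hx
          rw [norm_mul, ← this, pow_add]
          ring
  refine h1.trans ?_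
  set S := (Finset.range m ×ˢ Finset.range m).filter (fun x => x.1 + x.2 < m) with hS
  have h2 : ∑ j ∈ Finset.range m, ∑ x ∈ Finset.HasAntidiagonal.antidiagonal j,
        (‖P.coeff x.1‖ * r ^ x.1) * (‖Q.coeff x.2‖ * r ^ x.2) =
      ∑ x ∈ S, (‖P.coeff x.1‖ * r ^ x.1) * (‖Q.coeff x.2‖ * r ^ x.2) := by
    rw [← Finset.sum_fiberwise_of_maps_to (s := S) (t := Finset.range m)
      (g := fun x => x.1 + x.2)]
    · refine Finset.sum_congr rfl fun j hj => ?_
      refine Finset.sum_congr ?_ fun _ _ => rfl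
      ext x
      simp only [Finset.HasAntidiagonal.mem_antidiagonal, hS, Finset.mem_filter, Finset.mem_product,
        Finset.mem_range] at hj ⊢
      constructor
      · intro h
        omega
      · intro h
        omega
    · intro x hx
      simp only [hS, Finset.mem_filter] at hx
      exact Finset.mem_range.2 hx.2
  rw [h2]
  refine Finset.sum_le_sum_of_subset_of_nonneg (Finset.filter_subset _ _) fun x _ _ => ?_
  positivity

/-- division by a polynomial with a constant coefficient which dominates the others -/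
lemma wn_div {m : ℕ} {r : ℝ} (hr : 0 ≤ r) (p R : ℂ[X]) (hc : p.coeff 0 ≠ 0)
    (hp : wn m r (p - C (p.coeff 0)) ≤ ‖p.coeff 0‖ / 2) :
    wn m r R ≤ 2 / ‖p.coeff 0‖ * wn m r (p * R) := by
  have h0 : 0 < ‖p.coeff 0‖ := norm_pos_iff.2 hc
  have e : C (p.coeff 0) * R = p * R - (p - C (p.coeff 0)) * R := by ring
  have h1 : ‖p.coeff 0‖ * wn m r R ≤ wn m r (p * R) + ‖p.coeff 0‖ / 2 * wn m r R := by
    rw [← wn_C_mul, e]
    refine (wn_sub_le hr _ _).trans ?_
    gcongr
    exact (wn_mul_le hr _ _).trans (mul_le_mul_of_nonneg_right hp (wn_nonneg hr _))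
  rw [div_mul_eq_mul_div, le_div_iff₀ h0]
  nlinarith [h1]

/-! ### The splitting -/

open UniqueFactorizationMonoid in
theorem split (P : ℤ[X]) (hP : P ≠ 0) (J : ℕ) : ∃ (s : Multiset ℤ[X]) (Q : ℤ[X]),
    P = s.prod * Q ∧ (∀ p ∈ s, Irreducible p ∧ p ^ (J + 1) ∣ P) ∧
      (∀ q : ℤ[X], Irreducible q → ¬ q ^ (J + 1) ∣ Q) := by
  classical
  set F := normalizedFactors P with hF
  set s := F.filter (fun p => J < F.count p) with hs
  set t := F.filter (fun p => ¬ J < F.count p) with ht
  have hst : s + t = F := Multiset.filter_add_not _ _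
  obtain ⟨u, hu⟩ := prod_normalizedFactors hP
  have hprod : F.prod = s.prod * t.prod := by rw [← hst, Multiset.prod_add]
  refine ⟨s, t.prod * u, ?_, ?_, ?_⟩
  · rw [← mul_assoc, ← hprod]
    exact hu.symm
  · intro p hp
    have hpF : p ∈ F := Multiset.mem_of_mem_filter hp
    have hcnt : J < F.count p := (Multiset.mem_filter.1 hp).2
    have hirr := irreducible_of_normalized_factor p hpF
    refine ⟨hirr, ?_⟩
    have h0 : p ^ (J + 1) ≠ 0 := pow_ne_zero _ hirr.ne_zero
    rw [dvd_iff_normalizedFactors_le_normalizedFactors h0 hP, normalizedFactors_pow,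
      normalizedFactors_irreducible hirr, normalize_normalized_factor p hpF,
      Multiset.nsmul_singleton, ← Multiset.le_count_iff_replicate_le]
    exact hcnt
  · intro q hq hdvd
    have ht0 : t.prod ≠ 0 := by
      intro h
      rw [Multiset.prod_eq_zero_iff] at h
      exact zero_notMem_normalizedFactors P (Multiset.mem_of_mem_filter h)
    have hdvd' : q ^ (J + 1) ∣ t.prod := by
      rwa [Units.dvd_mul_right] at hdvd
    have h0 : q ^ (J + 1) ≠ 0 := pow_ne_zero _ hq.ne_zero
    rw [dvd_iff_normalizedFactors_le_normalizedFactors h0 ht0, normalizedFactors_pow,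
      normalizedFactors_irreducible hq, Multiset.nsmul_singleton,
      ← Multiset.le_count_iff_replicate_le] at hdvd'
    have htt : normalizedFactors t.prod = t := by
      rw [normalizedFactors_multiset_prod]
      · have : ∀ p ∈ t, normalizedFactors p = {p} := by
          intro p hp
          have hpF : p ∈ F := Multiset.mem_of_mem_filter hp
          rw [normalizedFactors_irreducible (irreducible_of_normalized_factor p hpF),
            normalize_normalized_factor p hpF]
        rw [Multiset.map_congr rfl this]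
        simp
      · intro h
        exact zero_notMem_normalizedFactors P (Multiset.mem_of_mem_filter h)
    rw [htt] at hdvd'
    have hmem : normalize q ∈ t := by
      rw [← Multiset.count_pos]
      omega
    have h1 := (Multiset.mem_filter.1 hmem).2
    have h2 : t.count (normalize q) ≤ F.count (normalize q) :=
      Multiset.count_le_of_le _ (Multiset.filter_le _ _)
    omega

lemma rm_pow_le (f : ℂ[X]) (hf : f ≠ 0) (z : ℂ) (h : f.rootMultiplicity z ≤ 1) (k : ℕ) :
    (f ^ k).rootMultiplicity z ≤ k := by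
  induction k with
  | zero =>
      rw [pow_zero]
      have : (1 : ℂ[X]).rootMultiplicity z = 0 := by
        rw [← C_1, rootMultiplicity_C]
      exact this.le
  | succ k ih =>
      rw [pow_succ, rootMultiplicity_mul (mul_ne_zero (pow_ne_zero _ hf) hf)]
      exact add_le_add ih h

/-- multiplicities of complex roots -/
theorem rootMultiplicity_le (Q : ℤ[X]) (hQ : Q ≠ 0) (J : ℕ)
    (h : ∀ q : ℤ[X], Irreducible q → ¬ q ^ (J + 1) ∣ Q) (z : ℂ) :
    (Q.map (Int.castRingHom ℂ)).rootMultiplicity z ≤ J := by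
  classical
  by_contra hJ
  have hJ' : J + 1 ≤ (Q.map (Int.castRingHom ℂ)).rootMultiplicity z := by omega
  have hinj : Function.Injective (Int.castRingHom ℂ) := (Int.castRingHom ℂ).injective_int
  have hQ0 : Q.map (Int.castRingHom ℂ) ≠ 0 := (Polynomial.map_ne_zero_iff hinj).2 hQ
  have hroot : (Q.map (Int.castRingHom ℂ)).eval z = 0 := by
    have := (rootMultiplicity_pos hQ0).1 (by omega : 0 < (Q.map (Int.castRingHom ℂ)).rootMultiplicity z)
    exact this
  -- an irreducible factor which vanishes at `z`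
  obtain ⟨q, hq, hqz⟩ : ∃ q : ℤ[X], Irreducible q ∧ (q.map (Int.castRingHom ℂ)).eval z = 0 := by
    obtain ⟨s, Q', e, hs, hQ'⟩ := split Q hQ 0
    have hQ'0 : Q' ≠ 0 := by
      rintro rfl
      exact hQ (by rw [e, mul_zero])
    have hunit : IsUnit Q' := by
      by_contra hu
      obtain ⟨p, hp, hpd⟩ := WfDvdMonoid.exists_irreducible_factor hu hQ'0
      exact hQ' p hp (by simpa using hpd)
    have h1 : ((s.prod).map (Int.castRingHom ℂ)).eval z * (Q'.map (Int.castRingHom ℂ)).eval z = 0 := by
      rw [← eval_mul, ← Polynomial.map_mul, ← e]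
      exact hroot
    have h2 : (Q'.map (Int.castRingHom ℂ)).eval z ≠ 0 := by
      have h3 : IsUnit ((Q'.map (Int.castRingHom ℂ)).eval z) := by
        have := hunit.map ((evalRingHom z).comp (mapRingHom (Int.castRingHom ℂ)))
        simpa using this
      exact h3.ne_zero
    have h4 : ((s.prod).map (Int.castRingHom ℂ)).eval z = 0 := by
      rcases mul_eq_zero.1 h1 with h | h
      · exact h
      · exact absurd h h2
    have h5 : (s.map (fun p : ℤ[X] => (p.map (Int.castRingHom ℂ)).eval z)).prod = 0 := by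
      have := map_multiset_prod ((evalRingHom z).comp (mapRingHom (Int.castRingHom ℂ))) s
      simp only [RingHom.coe_comp, coe_mapRingHom, Function.comp_apply, coe_evalRingHom] at this
      rw [← h4, this]
    rw [Multiset.prod_eq_zero_iff, Multiset.mem_map] at h5
    obtain ⟨p, hp, hpz⟩ := h5
    exact ⟨p, (hs p hp).1, hpz⟩
  have hdeg : q.natDegree ≠ 0 := by
    intro h0
    rw [natDegree_eq_zero] at h0
    obtain ⟨a, rfl⟩ := h0
    rw [map_C, eval_C] at hqz
    have : a = 0 := by
      have h1 : ((a : ℤ) : ℂ) = 0 := by simpa using hqz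
      exact_mod_cast h1
    rw [this, C_0] at hq
    exact hq.ne_zero rfl
  have hprim : q.IsPrimitive := hq.isPrimitive hdeg
  have hirr : Irreducible (q.map (Int.castRingHom ℚ)) :=
    (IsPrimitive.Int.irreducible_iff_irreducible_map_cast hprim).1 hq
  have hcomp : ∀ R : ℤ[X], (R.map (Int.castRingHom ℚ)).map (algebraMap ℚ ℂ) =
      R.map (Int.castRingHom ℂ) := by
    intro R
    rw [Polynomial.map_map]
    congr 1
  have hsep : (q.map (Int.castRingHom ℂ)).Separable := by
    rw [← hcomp]
    exact hirr.separable.map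
  have haev : ∀ R : ℤ[X], aeval z (R.map (Int.castRingHom ℚ)) =
      (R.map (Int.castRingHom ℂ)).eval z := by
    intro R
    rw [aeval_def, eval₂_eq_eval_map, hcomp]
  have hint : IsIntegral ℚ z :=
    (show IsAlgebraic ℚ z from ⟨q.map (Int.castRingHom ℚ), hirr.ne_zero, by rw [haev]; exact hqz⟩).isIntegral
  have hmp : (q.map (Int.castRingHom ℚ)) ∣ minpoly ℚ z := by
    have h1 : minpoly ℚ z ∣ q.map (Int.castRingHom ℚ) := minpoly.dvd ℚ z (by rw [haev]; exact hqz)
    exact (Irreducible.dvd_symm (minpoly.irreducible hint) hirr) h1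
  have key : ∀ k : ℕ, k ≤ J + 1 → q ^ k ∣ Q := by
    intro k
    induction k with
    | zero => intro _; simp
    | succ k ih =>
        intro hk
        obtain ⟨R, hR⟩ := ih (by omega)
        have hR0 : R ≠ 0 := by
          rintro rfl
          exact hQ (by rw [hR, mul_zero])
        have hqC : q.map (Int.castRingHom ℂ) ≠ 0 := (Polynomial.map_ne_zero_iff hinj).2 hq.ne_zero
        have hRC : R.map (Int.castRingHom ℂ) ≠ 0 := (Polynomial.map_ne_zero_iff hinj).2 hR0
        have h1 : (Q.map (Int.castRingHom ℂ)).rootMultiplicity z =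
            ((q.map (Int.castRingHom ℂ)) ^ k).rootMultiplicity z +
              (R.map (Int.castRingHom ℂ)).rootMultiplicity z := by
          rw [hR, Polynomial.map_mul, Polynomial.map_pow,
            rootMultiplicity_mul (mul_ne_zero (pow_ne_zero _ hqC) hRC)]
        have h2 := rm_pow_le (q.map (Int.castRingHom ℂ)) hqC z
          (rootMultiplicity_le_one_of_separable hsep z) k
        have h3 : 0 < (R.map (Int.castRingHom ℂ)).rootMultiplicity z := by omega
        have h4 : (R.map (Int.castRingHom ℂ)).eval z = 0 := (rootMultiplicity_pos hRC).1 h3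
        have h5 : (q.map (Int.castRingHom ℚ)) ∣ R.map (Int.castRingHom ℚ) :=
          hmp.trans (minpoly.dvd ℚ z (by rw [haev]; exact h4))
        have h6 : q ∣ R := (IsPrimitive.Int.dvd_iff_map_cast_dvd_map_cast q R hprim).2 h5
        rw [hR, pow_succ]
        exact mul_dvd_mul_left _ h6
  exact h q hq (key (J + 1) le_rfl)

theorem natDegree_big (P p : ℤ[X]) (hP : P ≠ 0) (J : ℕ) (h : p ^ (J + 1) ∣ P) :
    (J + 1) * p.natDegree ≤ P.natDegree := by
  rw [← natDegree_pow]
  exact natDegree_le_of_dvd h hP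

theorem mahler_big (P p : ℤ[X]) (hP : P ≠ 0) (J : ℕ) (h : p ^ (J + 1) ∣ P) :
    (p.map (Int.castRingHom ℂ)).mahlerMeasure ^ (J + 1) ≤
      (P.map (Int.castRingHom ℂ)).mahlerMeasure := by
  obtain ⟨R, rfl⟩ := h
  have hR : R ≠ 0 := right_ne_zero_of_mul hP
  rw [Polynomial.map_mul, mahlerMeasure_mul, Polynomial.map_pow]
  have e : ∀ (k : ℕ) (f : ℂ[X]), (f ^ k).mahlerMeasure = f.mahlerMeasure ^ k := by
    intro k f
    induction k with
    | zero => simp
    | succ k ih => rw [pow_succ, mahlerMeasure_mul, ih, pow_succ]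
  rw [e]
  exact le_mul_of_one_le_right (pow_nonneg (mahlerMeasure_nonneg _) _)
    (one_le_mahlerMeasure_of_ne_zero hR)

end

end Pool.Agent.LGO.B
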