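import Mathlib
import Pool.Agent.LGO.B.Fac

/-!
# LGO, part (4c): comparison for an integral polynomial

`factor_final`: an integral polynomial of degree `≤ D O` and log Mahler measure `≤ 2 D O h`, whose
Taylor coefficients of order `< O / 2` at `θ` are at most `e`, where `θ` is a number at which
irreducible integral polynomials of degree `≤ 8 D` and log height `≤ 24 D h` are at least
`exp (-M)`, satisfies `log (1 / e) ≤ C D O (M + D h)`.  It is deduced from the determinant lemma
`DetStatement`.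
-/

namespace Pool.Agent.LGO.B

open Polynomial Real

noncomputable section

/-- the polynomial `P (X + θ)` -/
def sh (θ : ℂ) (P : ℤ[X]) : ℂ[X] := (P.map (Int.castRingHom ℂ)).comp (X + C θ)

/-- the determinant lemma -/
def DetStatement (C1 : ℝ) : Prop :=
  ∀ (Q : ℤ[X]) (n J : ℕ) (H h e : ℝ) (θ : ℂ), Q ≠ 0 → 1 ≤ J → Q.natDegree ≤ n →
    (∀ z : ℂ, (Q.map (Int.castRingHom ℂ)).rootMultiplicity z ≤ J) → 1 ≤ H → 1 ≤ h →
    (∀ i, |(Q.coeff i : ℝ)| ≤ exp H) → 2 + ‖θ‖ ≤ exp h → 0 < e →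
    (∀ j, j < 2 * J → ‖(sh θ Q).coeff j‖ ≤ e) →
    (J : ℝ) * log (1 / e) ≤ C1 * n * (H + n * h)

lemma sh_mul (θ : ℂ) (P Q : ℤ[X]) : sh θ (P * Q) = sh θ P * sh θ Q := by
  simp [sh, Polynomial.map_mul, mul_comp]

lemma sh_one (θ : ℂ) : sh θ 1 = 1 := by simp [sh]

lemma sh_coeff_zero (θ : ℂ) (P : ℤ[X]) : (sh θ P).coeff 0 = (P.map (Int.castRingHom ℂ)).eval θ := by
  rw [coeff_zero_eq_eval_zero, sh, eval_comp]
  simp

lemma wn_X_add_C_le (m : ℕ) (θ : ℂ) : wn m 1 (X + C θ) ≤ 1 + ‖θ‖ := by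
  have h1 : wn m 1 (X : ℂ[X]) ≤ 1 := by
    unfold wn
    rcases le_or_gt m 1 with hm | hm
    · have : ∀ j ∈ Finset.range m, ‖(X : ℂ[X]).coeff j‖ * (1 : ℝ) ^ j = 0 := by
        intro j hj
        have : j = 0 := by
          have := Finset.mem_range.1 hj
          omega
        subst this
        simp
      rw [Finset.sum_congr rfl this]
      simp
    · rw [Finset.sum_eq_single 1]
      · simp
      · intro j _ hj
        rw [coeff_X, if_neg (Ne.symm hj)]
        simp
      · intro h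
        exact absurd (Finset.mem_range.2 hm) h
  have h2 : wn m 1 (C θ : ℂ[X]) ≤ ‖θ‖ := by
    unfold wn
    rcases Nat.eq_zero_or_pos m with hm | hm
    · subst hm
      simp
    · rw [Finset.sum_eq_single 0]
      · simp
      · intro j _ hj
        rw [coeff_C, if_neg hj]
        simp
      · intro h
        exact absurd (Finset.mem_range.2 hm) h
  exact (wn_add_le zero_le_one _ _).trans (add_le_add h1 h2)

lemma wn_one_le (m : ℕ) {r : ℝ} : wn m r (1 : ℂ[X]) ≤ 1 := by
  unfold wn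
  rcases Nat.eq_zero_or_pos m with hm | hm
  · subst hm
    simp
  · rw [Finset.sum_eq_single 0]
    · simp
    · intro j _ hj
      rw [coeff_one, if_neg hj]
      simp
    · intro h
      exact absurd (Finset.mem_range.2 hm) h

lemma wn_pow_le {m : ℕ} {r : ℝ} (hr : 0 ≤ r) (P : ℂ[X]) (k : ℕ) : wn m r (P ^ k) ≤ wn m r P ^ k := by
  induction k with
  | zero => simpa using wn_one_le m
  | succ k ih =>
      rw [pow_succ, pow_succ]
      exact (wn_mul_le hr _ _).trans (mul_le_mul_of_nonneg_right ih (wn_nonneg hr _))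

lemma wn_sum_le {m : ℕ} {r : ℝ} (hr : 0 ≤ r) {ι : Type*} (s : Finset ι) (f : ι → ℂ[X]) :
    wn m r (∑ i ∈ s, f i) ≤ ∑ i ∈ s, wn m r (f i) := by
  classical
  induction s using Finset.induction_on with
  | empty => simp [wn]
  | insert a s ha ih =>
      rw [Finset.sum_insert ha, Finset.sum_insert ha]
      exact (wn_add_le hr _ _).trans (add_le_add le_rfl ih)

/-- the coefficients of `P (X + θ)` -/
lemma wn_sh_le (m : ℕ) (θ : ℂ) (P : ℤ[X]) (B h : ℝ) (hB : ∀ i, |(P.coeff i : ℝ)| ≤ B)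
    (hθ : 1 + ‖θ‖ ≤ exp h) (hh : 0 ≤ h) :
    wn m 1 (sh θ P) ≤ (P.natDegree + 1) * (B * exp (P.natDegree * h)) := by
  have hB0 : 0 ≤ B := (abs_nonneg _).trans (hB 0)
  have e : sh θ P = ∑ i ∈ Finset.range (P.natDegree + 1), C ((P.coeff i : ℤ) : ℂ) * (X + C θ) ^ i := by
    unfold sh
    conv_lhs => rw [P.as_sum_range_C_mul_X_pow]
    simp [Polynomial.map_sum, sum_comp]
  rw [e]
  refine (wn_sum_le zero_le_one _ _).trans ?_
  have h1 : ∀ i ∈ Finset.range (P.natDegree + 1),
      wn m 1 (C ((P.coeff i : ℤ) : ℂ) * (X + C θ) ^ i) ≤ B * exp (P.natDegree * h) := by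
    intro i hi
    have hi' : i ≤ P.natDegree := by
      have := Finset.mem_range.1 hi
      omega
    rw [wn_C_mul]
    have h2 : ‖((P.coeff i : ℤ) : ℂ)‖ ≤ B := by
      rw [Complex.norm_intCast]
      exact hB i
    have h3 : wn m 1 ((X + C θ) ^ i) ≤ exp (P.natDegree * h) := by
      refine (wn_pow_le zero_le_one _ _).trans ?_
      calc wn m 1 (X + C θ) ^ i ≤ (exp h) ^ i :=
            pow_le_pow_left₀ (wn_nonneg zero_le_one _) ((wn_X_add_C_le m θ).trans hθ) _
        _ = exp (i * h) := by rw [← exp_nat_mul]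
        _ ≤ _ := by
            apply exp_le_exp.2
            have : (i : ℝ) ≤ P.natDegree := by exact_mod_cast hi'
            gcongr
    exact mul_le_mul h2 h3 (wn_nonneg zero_le_one _) hB0
  refine (Finset.sum_le_sum h1).trans ?_
  rw [Finset.sum_const, Finset.card_range, nsmul_eq_mul]
  push_cast
  exact le_rfl

/-- one division step with a factor which is not small at `θ` -/
lemma wn_factor {m : ℕ} {r M B : ℝ} (hr : 0 ≤ r) (hr1 : r ≤ 1) (hM : 0 ≤ M) (θ : ℂ) (p : ℤ[X])
    (hp : Irreducible p) (hB : wn m 1 (sh θ p) ≤ B) (hrB : r * B ≤ exp (-M) / 2)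
    (hlow : 0 < p.natDegree → exp (-M) ≤ ‖(p.map (Int.castRingHom ℂ)).eval θ‖) (R : ℂ[X]) :
    wn m r R ≤ (2 * exp M) ^ p.natDegree * wn m r (sh θ p * R) := by
  rcases Nat.eq_zero_or_pos p.natDegree with h0 | hpos
  · -- a constant factor
    rw [natDegree_eq_zero] at h0
    obtain ⟨a, rfl⟩ := h0
    have hne : a ≠ 0 := by
      rintro rfl
      exact hp.ne_zero (by simp)
    have e : sh θ (C a) = C (a : ℂ) := by simp [sh]
    rw [e, wn_C_mul, natDegree_C, pow_zero, one_mul]
    have h1 : (1 : ℝ) ≤ ‖(a : ℂ)‖ := by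
      rw [Complex.norm_intCast]
      exact_mod_cast Int.one_le_abs hne
    exact le_mul_of_one_le_left (wn_nonneg hr _) h1
  · have hl := hlow hpos
    rw [← sh_coeff_zero] at hl
    have hc : (sh θ p).coeff 0 ≠ 0 := by
      intro h
      rw [h, norm_zero] at hl
      exact absurd (exp_pos (-M)) (not_lt.2 hl)
    have hsmall : wn m r (sh θ p - C ((sh θ p).coeff 0)) ≤ ‖(sh θ p).coeff 0‖ / 2 := by
      have h1 : wn m r (sh θ p - C ((sh θ p).coeff 0)) ≤ r * wn m 1 (sh θ p) := by
        unfold wn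
        rw [Finset.mul_sum]
        refine Finset.sum_le_sum fun j _ => ?_
        rcases Nat.eq_zero_or_pos j with hj | hj
        · subst hj
          simp only [coeff_sub, coeff_C_zero, sub_self, norm_zero, zero_mul]
          positivity
        · rw [coeff_sub, coeff_C, if_neg hj.ne', sub_zero, one_pow, mul_one, mul_comm r]
          refine mul_le_mul_of_nonneg_left ?_ (norm_nonneg _)
          calc r ^ j ≤ r ^ 1 := pow_le_pow_of_le_one hr hr1 hj
            _ = r := pow_one r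
      calc wn m r (sh θ p - C ((sh θ p).coeff 0)) ≤ r * wn m 1 (sh θ p) := h1
        _ ≤ r * B := mul_le_mul_of_nonneg_left hB hr
        _ ≤ exp (-M) / 2 := hrB
        _ ≤ _ := by linarith
    refine (wn_div hr (sh θ p) R hc hsmall).trans ?_
    refine mul_le_mul_of_nonneg_right ?_ (wn_nonneg hr _)
    have h2 : 2 / ‖(sh θ p).coeff 0‖ ≤ 2 * exp M := by
      rw [div_le_iff₀ (norm_pos_iff.2 hc)]
      calc (2 : ℝ) = 2 * exp M * exp (-M) := by
            rw [mul_assoc, ← exp_add]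
            simp
        _ ≤ _ := mul_le_mul_of_nonneg_left hl (by positivity)
    refine h2.trans ?_
    have h3 : 1 ≤ 2 * exp M := by
      have := one_le_exp hM
      linarith
    calc 2 * exp M = (2 * exp M) ^ 1 := (pow_one _).symm
      _ ≤ _ := pow_le_pow_right₀ h3 hpos

lemma wn_prod {m : ℕ} {r M B : ℝ} (hr : 0 ≤ r) (hr1 : r ≤ 1) (hM : 0 ≤ M) (θ : ℂ)
    (s : Multiset ℤ[X]) (hs : ∀ p ∈ s, Irreducible p ∧ wn m 1 (sh θ p) ≤ B ∧
      (0 < p.natDegree → exp (-M) ≤ ‖(p.map (Int.castRingHom ℂ)).eval θ‖))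
    (hrB : r * B ≤ exp (-M) / 2) (R : ℂ[X]) :
    wn m r R ≤ (2 * exp M) ^ s.prod.natDegree * wn m r (sh θ s.prod * R) := by
  induction s using Multiset.induction_on generalizing R with
  | empty => simp [sh_one]
  | cons p s ih =>
      have hp := hs p (Multiset.mem_cons_self p s)
      have hs' : ∀ p ∈ s, Irreducible p ∧ wn m 1 (sh θ p) ≤ B ∧
        (0 < p.natDegree → exp (-M) ≤ ‖(p.map (Int.castRingHom ℂ)).eval θ‖) :=
        fun q hq => hs q (Multiset.mem_cons_of_mem hq)
      have h0 : s.prod ≠ 0 := by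
        intro h
        rw [Multiset.prod_eq_zero_iff] at h
        exact (hs' 0 h).1.ne_zero rfl
      rw [Multiset.prod_cons, natDegree_mul hp.1.ne_zero h0, pow_add, sh_mul]
      have h1 := wn_factor hr hr1 hM θ p hp.1 hp.2.1 hrB hp.2.2 R
      have h2 := ih hs' (sh θ p * R)
      calc wn m r R ≤ (2 * exp M) ^ p.natDegree * wn m r (sh θ p * R) := h1
        _ ≤ (2 * exp M) ^ p.natDegree * ((2 * exp M) ^ s.prod.natDegree *
              wn m r (sh θ s.prod * (sh θ p * R))) := by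
            gcongr
        _ = _ := by
            rw [← mul_assoc, ← mul_assoc (sh θ s.prod), mul_comm (sh θ s.prod)]

/-- coefficients of a divisor in terms of the Mahler measure -/
lemma coeff_le_of_mahler (P : ℤ[X]) (n : ℕ) (hn : P.natDegree ≤ n) (A : ℝ)
    (hA : (P.map (Int.castRingHom ℂ)).mahlerMeasure ≤ exp A) (i : ℕ) :
    |(P.coeff i : ℝ)| ≤ exp (n + A) := by
  have h1 := norm_coeff_le_choose_mul_mahlerMeasure i (P.map (Int.castRingHom ℂ))
  rw [coeff_map] at h1
  have h2 : ‖(Int.castRingHom ℂ) (P.coeff i)‖ = |(P.coeff i : ℝ)| := by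
    rw [eq_intCast, Complex.norm_intCast]
  rw [h2, natDegree_map_eq_of_injective (Int.castRingHom ℂ).injective_int] at h1
  refine h1.trans ?_
  rw [exp_add]
  refine mul_le_mul ?_ hA (mahlerMeasure_nonneg _) (exp_pos _).le
  have h3 : ((P.natDegree.choose i : ℕ) : ℝ) ≤ 2 ^ P.natDegree := by
    exact_mod_cast Nat.choose_le_two_pow P.natDegree i
  refine h3.trans ?_
  calc (2 : ℝ) ^ P.natDegree ≤ 2 ^ n := pow_le_pow_right₀ (by norm_num) hn
    _ ≤ exp 1 ^ n := by
        gcongr
        have := add_one_le_exp (1 : ℝ)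
        linarith
    _ = exp n := by rw [← exp_nat_mul, mul_one]

/-- **comparison for an integral polynomial** -/
theorem factor_final (C1 : ℝ) (hC1 : 0 ≤ C1) (hdet : DetStatement C1) (Pn : ℤ[X]) (D h M e : ℝ)
    (O : ℕ) (θ : ℂ) (hP : Pn ≠ 0) (hD : 1 ≤ D) (hh : 1 ≤ h) (hM : 1 ≤ M) (hθ : 2 + ‖θ‖ ≤ exp h)
    (hO : 8 ≤ O) (hdeg : (Pn.natDegree : ℝ) ≤ D * O)
    (hmah : (Pn.map (Int.castRingHom ℂ)).mahlerMeasure ≤ exp (2 * D * O * h))
    (hmeas : ∀ q : ℤ[X], Irreducible q → 0 < q.natDegree → (q.natDegree : ℝ) ≤ 8 * D →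
      (∀ i, |(q.coeff i : ℝ)| ≤ exp (24 * D * h)) →
      exp (-M) ≤ ‖(q.map (Int.castRingHom ℂ)).eval θ‖)
    (he : 0 < e) (hsm : ∀ j, 2 * j < O → ‖(sh θ Pn).coeff j‖ ≤ e) :
    log (1 / e) ≤ (64 * C1 + 20) * (D * O * (M + D * h)) := by
  classical
  set J := O / 8 with hJ
  have hJ1 : 1 ≤ J := by omega
  have hOJ : O < 8 * (J + 1) := by omega
  have hOJ' : (O : ℝ) ≤ 8 * ((J : ℝ) + 1) := by exact_mod_cast hOJ.le
  have hJO : 8 * J ≤ O := by omega
  have hJO' : 8 * (J : ℝ) ≤ O := by exact_mod_cast hJO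
  have hJR : (1 : ℝ) ≤ J := by exact_mod_cast hJ1
  have hDh : 1 ≤ D * h := by nlinarith
  obtain ⟨s, Q, hPQ, hs, hQ⟩ := split Pn hP J
  have hs0 : s.prod ≠ 0 := by
    rintro h0
    exact hP (by rw [hPQ, h0, zero_mul])
  have hQ0 : Q ≠ 0 := by
    rintro h0
    exact hP (by rw [hPQ, h0, mul_zero])
  have hdegPQ : Pn.natDegree = s.prod.natDegree + Q.natDegree := by
    conv_lhs => rw [hPQ]
    exact natDegree_mul hs0 hQ0
  -- the big factors
  have hbig : ∀ p ∈ s, (p.natDegree : ℝ) ≤ 8 * D ∧ (∀ i, |(p.coeff i : ℝ)| ≤ exp (24 * D * h)) := by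
    intro p hp
    have hd := natDegree_big Pn p hP J (hs p hp).2
    have hd' : ((J : ℝ) + 1) * p.natDegree ≤ Pn.natDegree := by exact_mod_cast hd
    have h1 : (p.natDegree : ℝ) ≤ 8 * D := by
      have h2 : ((J : ℝ) + 1) * p.natDegree ≤ ((J : ℝ) + 1) * (8 * D) := by
        calc ((J : ℝ) + 1) * p.natDegree ≤ D * O := hd'.trans hdeg
          _ ≤ D * (8 * ((J : ℝ) + 1)) := by gcongr
          _ = _ := by ring
      exact le_of_mul_le_mul_left h2 (by positivity)
    refine ⟨h1, fun i => ?_⟩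
    have hm := (mahler_big Pn p hP J (hs p hp).2).trans hmah
    have hm' : (p.map (Int.castRingHom ℂ)).mahlerMeasure ≤ exp (16 * D * h) := by
      by_contra hcon
      have hcon' := not_le.1 hcon
      have h3 : exp (16 * D * h) ^ (J + 1) < (p.map (Int.castRingHom ℂ)).mahlerMeasure ^ (J + 1) :=
        pow_lt_pow_left₀ hcon' (exp_pos _).le (by omega)
      have h4 : exp (2 * D * O * h) ≤ exp (16 * D * h) ^ (J + 1) := by
        rw [← exp_nat_mul]
        apply exp_le_exp.2
        push_cast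
        have : D * O * h ≤ D * (8 * ((J : ℝ) + 1)) * h := by gcongr
        nlinarith
      linarith
    have h5 := coeff_le_of_mahler p p.natDegree le_rfl _ hm' i
    refine h5.trans (exp_le_exp.2 ?_)
    nlinarith
  -- the weight
  set B := exp (40 * (D * h)) with hB
  set r := exp (-(M + 41 * (D * h))) with hr
  have hr0 : 0 < r := exp_pos _
  have hr1 : r ≤ 1 := by
    rw [hr]
    apply exp_le_one_iff.2
    nlinarith
  have hrB : r * B ≤ exp (-M) / 2 := by
    rw [hr, hB, ← exp_add]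
    have h1 : -(M + 41 * (D * h)) + 40 * (D * h) = -M + -(D * h) := by ring
    rw [h1, exp_add, div_eq_mul_inv]
    refine mul_le_mul_of_nonneg_left ?_ (exp_pos _).le
    have h2 : exp (-(D * h)) ≤ exp (-1) := exp_le_exp.2 (by linarith)
    have h3 : exp (-1 : ℝ) ≤ 2⁻¹ := by
      rw [exp_neg]
      apply inv_anti₀ (by norm_num)
      have := add_one_le_exp (1 : ℝ)
      linarith
    exact h2.trans h3
  have hs' : ∀ p ∈ s, Irreducible p ∧ wn (2 * J) 1 (sh θ p) ≤ B ∧
      (0 < p.natDegree → exp (-M) ≤ ‖(p.map (Int.castRingHom ℂ)).eval θ‖) := by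
    intro p hp
    obtain ⟨h1, h2⟩ := hbig p hp
    refine ⟨(hs p hp).1, ?_, fun hpos => hmeas p (hs p hp).1 hpos h1 h2⟩
    refine (wn_sh_le (2 * J) θ p (exp (24 * D * h)) h h2 (by linarith) (by linarith)).trans ?_
    have h3 : ((p.natDegree : ℝ) + 1) ≤ exp (8 * (D * h)) := by
      calc ((p.natDegree : ℝ) + 1) ≤ 8 * D + 1 := by linarith
        _ ≤ 8 * (D * h) + 1 := by nlinarith
        _ ≤ _ := add_one_le_exp _
    calc ((p.natDegree : ℝ) + 1) * (exp (24 * D * h) * exp (p.natDegree * h))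
        ≤ exp (8 * (D * h)) * (exp (24 * D * h) * exp (8 * D * h)) := by gcongr
      _ = exp (40 * (D * h)) := by
          rw [← exp_add, ← exp_add]
          congr 1
          ring
      _ = B := rfl
  have hkey := wn_prod (m := 2 * J) hr0.le hr1 (by linarith) θ s hs' hrB (sh θ Q)
  rw [← sh_mul, ← hPQ] at hkey
  -- the polynomial itself
  have hPw : wn (2 * J) r (sh θ Pn) ≤ 2 * J * e := by
    unfold wn
    calc ∑ j ∈ Finset.range (2 * J), ‖(sh θ Pn).coeff j‖ * r ^ j
        ≤ ∑ j ∈ Finset.range (2 * J), e := by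
          refine Finset.sum_le_sum fun j hj => ?_
          have hj' := Finset.mem_range.1 hj
          calc ‖(sh θ Pn).coeff j‖ * r ^ j ≤ e * 1 :=
                mul_le_mul (hsm j (by omega)) (pow_le_one₀ hr0.le hr1) (pow_nonneg hr0.le _) he.le
            _ = e := mul_one e
      _ = 2 * J * e := by
          rw [Finset.sum_const, Finset.card_range, nsmul_eq_mul]
          push_cast
          ring
  set n := ⌊D * O⌋₊ with hn
  have hDO : 0 ≤ D * O := by positivity
  have hnle : (n : ℝ) ≤ D * O := Nat.floor_le hDO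
  have hnd : Pn.natDegree ≤ n := Nat.le_floor hdeg
  set e' := (2 * exp M) ^ n * (2 * J * e) * (r ^ (2 * J))⁻¹ with he'
  have he'0 : 0 < e' := by positivity
  have h2M : 1 ≤ 2 * exp M := by
    have := one_le_exp (show 0 ≤ M by linarith)
    linarith
  have hQw : wn (2 * J) r (sh θ Q) ≤ (2 * exp M) ^ n * (2 * J * e) := by
    refine hkey.trans ?_
    refine mul_le_mul ?_ hPw (wn_nonneg hr0.le _) (by positivity)
    exact pow_le_pow_right₀ h2M (by omega)
  have hQsm : ∀ j, j < 2 * J → ‖(sh θ Q).coeff j‖ ≤ e' := by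
    intro j hj
    have h1 : ‖(sh θ Q).coeff j‖ * r ^ j ≤ wn (2 * J) r (sh θ Q) := by
      unfold wn
      exact Finset.single_le_sum (f := fun j => ‖(sh θ Q).coeff j‖ * r ^ j)
        (fun i _ => mul_nonneg (norm_nonneg _) (pow_nonneg hr0.le _)) (Finset.mem_range.2 hj)
    have h2 : ‖(sh θ Q).coeff j‖ * r ^ (2 * J) ≤ ‖(sh θ Q).coeff j‖ * r ^ j :=
      mul_le_mul_of_nonneg_left (pow_le_pow_of_le_one hr0.le hr1 hj.le) (norm_nonneg _)
    rw [he', ← div_eq_mul_inv, le_div_iff₀ (by positivity)]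
    exact h2.trans (h1.trans hQw)
  have hQmah : (Q.map (Int.castRingHom ℂ)).mahlerMeasure ≤ exp (2 * D * O * h) := by
    refine le_trans ?_ hmah
    rw [hPQ, Polynomial.map_mul, mahlerMeasure_mul]
    exact le_mul_of_one_le_left (mahlerMeasure_nonneg _) (one_le_mahlerMeasure_of_ne_zero hs0)
  have hQdeg : Q.natDegree ≤ n := by omega
  have hDO1 : 1 ≤ D * O := by
    have : (8 : ℝ) ≤ O := by exact_mod_cast hO
    nlinarith
  have hQco : ∀ i, |(Q.coeff i : ℝ)| ≤ exp (3 * (D * O * h)) := by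
    intro i
    refine (coeff_le_of_mahler Q n hQdeg _ hQmah i).trans (exp_le_exp.2 ?_)
    nlinarith
  have hH1 : 1 ≤ 3 * (D * O * h) := by nlinarith
  have hfin := hdet Q n J (3 * (D * O * h)) h e' θ hQ0 hJ1 hQdeg
    (rootMultiplicity_le Q hQ0 J hQ) hH1 hh hQco hθ he'0 hQsm
  -- the logarithm of `e'`
  have hlog : log (1 / e') = log (1 / e) - (n * (log 2 + M) + log (2 * J) +
      2 * J * (M + 41 * (D * h))) := by
    rw [he', one_div, log_inv, one_div, log_inv, log_mul (by positivity) (by positivity),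
      log_mul (by positivity) (by positivity), log_pow, log_mul (by norm_num) (exp_pos _).ne',
      log_exp, log_mul (by positivity) he.ne', log_inv, log_pow, hr, log_exp]
    push_cast
    ring
  have hlog2 : log 2 ≤ 1 := by
    have := log_le_sub_one_of_pos (show (0 : ℝ) < 2 by norm_num)
    linarith
  have hlogJ : log (2 * J) ≤ 2 * J := by
    have := log_le_sub_one_of_pos (show (0 : ℝ) < 2 * J by positivity)
    linarith
  have hfin2 : (J : ℝ) * log (1 / e') ≤ C1 * (D * O) * (3 * (D * O * h) + D * O * h) := by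
    refine hfin.trans ?_
    have hn0 : (0 : ℝ) ≤ n := Nat.cast_nonneg n
    gcongr
  have hJpos : (0 : ℝ) < J := by linarith
  have hfin3 : log (1 / e') ≤ 64 * C1 * (D * O * (D * h)) := by
    have h1 : (J : ℝ) * log (1 / e') ≤ J * (64 * C1 * (D * O * (D * h))) := by
      refine hfin2.trans ?_
      have h2 : (O : ℝ) ≤ 16 * J := by linarith
      have h3 : 0 ≤ C1 * (D * O) * (D * h) * 4 := by positivity
      calc C1 * (D * O) * (3 * (D * O * h) + D * O * h)
          = (C1 * (D * O) * (D * h) * 4) * O := by ring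
        _ ≤ (C1 * (D * O) * (D * h) * 4) * (16 * J) := mul_le_mul_of_nonneg_left h2 h3
        _ = _ := by ring
    exact le_of_mul_le_mul_left h1 hJpos
  have hX : 0 ≤ D * O * (D * h) := by positivity
  have hY : 0 ≤ D * O * M := by positivity
  have b1 : (n : ℝ) * (log 2 + M) ≤ 2 * (D * O * M) := by
    calc (n : ℝ) * (log 2 + M) ≤ (D * O) * (2 * M) := by
          refine mul_le_mul hnle (by linarith) ?_ hDO
          have := log_nonneg (show (1 : ℝ) ≤ 2 by norm_num)
          linarith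
      _ = _ := by ring
  have hOD : (O : ℝ) ≤ D * O := by
    have : (0 : ℝ) ≤ O := Nat.cast_nonneg O
    nlinarith
  have b2 : log (2 * J) ≤ D * O * M := by
    calc log (2 * J) ≤ 2 * J := hlogJ
      _ ≤ O := by linarith
      _ ≤ D * O := hOD
      _ ≤ D * O * M := by nlinarith
  have b3 : 2 * (J : ℝ) * (M + 41 * (D * h)) ≤ D * O * M + 11 * (D * O * (D * h)) := by
    have h1 : 2 * (J : ℝ) ≤ O / 4 := by linarith
    have h2 : 0 ≤ M + 41 * (D * h) := by positivity
    calc 2 * (J : ℝ) * (M + 41 * (D * h)) ≤ O / 4 * (M + 41 * (D * h)) :=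
          mul_le_mul_of_nonneg_right h1 h2
      _ ≤ (D * O) / 4 * (M + 41 * (D * h)) := by gcongr
      _ = D * O * M / 4 + 41 / 4 * (D * O * (D * h)) := by ring
      _ ≤ _ := by linarith
  rw [hlog] at hfin3
  have hgoal : (64 * C1 + 20) * (D * O * (M + D * h)) =
      64 * C1 * (D * O * (D * h)) + 64 * C1 * (D * O * M) + 20 * (D * O * M) +
        20 * (D * O * (D * h)) := by ring
  rw [hgoal]
  have : 0 ≤ 64 * C1 * (D * O * M) := by positivity
  linarith

end

end Pool.Agent.LGO.B
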